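import Mathlib

/-!
# Curves in the powers of a complex elliptic curve, line bundles and quasi-diagonals

`E = ℂ / Λ` is a complex elliptic curve, `Eⁿ` is the type of functions `Fin n → E`. By the theorem
of Chow the irreducible closed algebraic curves in `Eⁿ` are the irreducible closed analytic
curves, and by the theorem GAGA of Serre the algebraic line bundles on them are the holomorphic
ones.
-/

set_option autoImplicit false

open Filter Topology

namespace Pool.Agent.V1164.QD

noncomputable section

/-- The complex elliptic curve `E = ℂ / Λ`, where `Λ` is the lattice of the period pair `P`, with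
its group structure and its topology. -/
abbrev Ell (P : PeriodPair) : Type := ℂ ⧸ P.lattice.toAddSubgroup

variable {P : PeriodPair} {n : ℕ}

/-- The point of `Eⁿ` with the coordinates `z`: the quotient map `ℂⁿ → Eⁿ`. -/
def pr (P : PeriodPair) {n : ℕ} (z : Fin n → ℂ) : Fin n → Ell P := fun i => (z i : Ell P)

/-- `S` is a closed analytic subset of `Eⁿ`: near every point of `Eⁿ` it is the set of common zeros
of finitely many holomorphic functions. -/
def IsAnalyticSubset (S : Set (Fin n → Ell P)) : Prop :=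
  ∀ z : Fin n → ℂ, ∃ (m : ℕ) (F : (Fin n → ℂ) → (Fin m → ℂ)), AnalyticAt ℂ F z ∧
    ∀ᶠ w in 𝓝 z, (pr P w ∈ S ↔ F w = 0)

/-- Near the point `p` the set `S` is a complex submanifold of dimension one of `Eⁿ`: it is the
graph of a holomorphic map `g` of one of the coordinates. -/
def IsSmoothCurveAt (S : Set (Fin n → Ell P)) (p : Fin n → Ell P) : Prop :=
  ∃ (z : Fin n → ℂ) (i : Fin n) (g : ℂ → (Fin n → ℂ)), pr P z = p ∧ AnalyticAt ℂ g (z i) ∧
    (∀ t, g t i = t) ∧ ∀ᶠ w in 𝓝 z, (pr P w ∈ S ↔ w = g (w i))

/-- `S` is an irreducible (reduced) curve in `Eⁿ`: a closed analytic subset which, outside a finite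
set `F`, is a connected complex submanifold of dimension one, and is the closure of this
submanifold. -/
structure IsIrreducibleCurve (S : Set (Fin n → Ell P)) : Prop where
  analytic : IsAnalyticSubset S
  regular : ∃ F : Set (Fin n → Ell P), F.Finite ∧ (∀ p ∈ S \ F, IsSmoothCurveAt S p) ∧
    IsConnected (S \ F) ∧ S ⊆ closure (S \ F)

/-- The function `h` on `E` is holomorphic at the point `x`. -/
def IsHolAtE (h : Ell P → ℂ) (x : Ell P) : Prop :=
  ∃ z : ℂ, (z : Ell P) = x ∧ AnalyticAt ℂ (fun w : ℂ => h (w : Ell P)) z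

/-- The function `h` is a regular (holomorphic) function on `S` at the point `p`: near `p` it is
the restriction to `S` of a holomorphic function on an open subset of `Eⁿ`. -/
def IsHolAt (S : Set (Fin n → Ell P)) (h : (Fin n → Ell P) → ℂ) (p : Fin n → Ell P) : Prop :=
  ∃ (z : Fin n → ℂ) (H : (Fin n → ℂ) → ℂ), pr P z = p ∧ AnalyticAt ℂ H z ∧
    ∀ᶠ w in 𝓝 z, pr P w ∈ S → h (pr P w) = H w

/-- A holomorphic line bundle on `E`, given by an open covering `U` and transition functions
`g i j`, which are holomorphic and nowhere zero on `U i ∩ U j` and satisfy the cocycle condition. -/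
structure LineBundle (P : PeriodPair) where
  /-- index set of the covering -/
  I : Type
  /-- the open sets of the covering -/
  U : I → Set (Ell P)
  /-- the transition functions -/
  g : I → I → Ell P → ℂ
  isOpen : ∀ i, IsOpen (U i)
  cover : ∀ x, ∃ i, x ∈ U i
  hol : ∀ i j x, x ∈ U i → x ∈ U j → IsHolAtE (g i j) x
  ne_zero : ∀ i j x, x ∈ U i → x ∈ U j → g i j x ≠ 0
  cocycle : ∀ i j k x, x ∈ U i → x ∈ U j → x ∈ U k → g i j x * g j k x = g i k x

/-- The functions `s i` on the sets `U i` form a holomorphic section of the line bundle `L ^ N`. -/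
structure LineBundle.IsSection (L : LineBundle P) (N : ℕ) (s : L.I → Ell P → ℂ) : Prop where
  hol : ∀ i x, x ∈ L.U i → IsHolAtE (s i) x
  trans : ∀ i j x, x ∈ L.U i → x ∈ L.U j → s i x = L.g i j x ^ N * s j x

/-- The line bundle `L` on `E` is ample, i.e. of positive degree: some positive power `L ^ N` has a
holomorphic section which is not identically zero and which vanishes at some point. -/
def LineBundle.IsAmple (L : LineBundle P) : Prop :=
  ∃ N : ℕ, 1 ≤ N ∧ ∃ s : L.I → Ell P → ℂ, L.IsSection N s ∧
    (∃ i, ∃ x ∈ L.U i, s i x = 0) ∧ ∃ i, ∃ x ∈ L.U i, s i x ≠ 0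

/-- The functions `s i j` form a nowhere vanishing holomorphic section over `S` of the `N`-th power
of the line bundle `(p_a^* L ⊗ (p_b^* L)⁻¹)|_S`, where `p_a` and `p_b` are the projections of `Eⁿ`
onto the factors `a` and `b`. The bundle `p_a^* L ⊗ (p_b^* L)⁻¹` has the transition functions
`g i i' (p a) / g j j' (p b)` for the covering by the sets `{p | p a ∈ U i, p b ∈ U j}`. -/
structure IsTrivialization (L : LineBundle P) (S : Set (Fin n → Ell P)) (a b : Fin n) (N : ℕ)
    (s : L.I → L.I → (Fin n → Ell P) → ℂ) : Prop where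
  hol : ∀ i j, ∀ p ∈ S, p a ∈ L.U i → p b ∈ L.U j → IsHolAt S (s i j) p
  ne_zero : ∀ i j, ∀ p ∈ S, p a ∈ L.U i → p b ∈ L.U j → s i j p ≠ 0
  trans : ∀ i j i' j', ∀ p ∈ S, p a ∈ L.U i → p a ∈ L.U i' → p b ∈ L.U j → p b ∈ L.U j' →
    s i j p = (L.g i i' (p a) / L.g j j' (p b)) ^ N * s i' j' p

/-- `S` is a quasi-diagonal over `(E, L)` in `Eⁿ`: an irreducible curve such that for all `a`, `b`
some positive power of the line bundle `(p_a^* L ⊗ (p_b^* L)⁻¹)|_S` is trivial. -/
structure IsQuasiDiagonal (L : LineBundle P) (S : Set (Fin n → Ell P)) : Prop where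
  curve : IsIrreducibleCurve S
  torsion : ∀ a b : Fin n, ∃ N : ℕ, 1 ≤ N ∧ ∃ s, IsTrivialization L S a b N s

/-- `S` is restricted: the sum of the coordinates is constant on `S`. -/
def IsRestricted (S : Set (Fin n → Ell P)) : Prop := ∃ c : Ell P, ∀ p ∈ S, ∑ i, p i = c

/-- `S` is an elliptic curve, i.e. smooth of genus one: it is the image of a holomorphic embedding
`ℂ / Λ' → Eⁿ` of a complex torus of dimension one, given by a holomorphic map `F : ℂ → ℂⁿ`. -/
def IsElliptic (S : Set (Fin n → Ell P)) : Prop :=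
  ∃ (Q : PeriodPair) (F : ℂ → (Fin n → ℂ)), Differentiable ℂ F ∧ (∀ t, deriv F t ≠ 0) ∧
    (∀ s t, pr P (F s) = pr P (F t) ↔ s - t ∈ Q.lattice) ∧
    S = Set.range (fun t => pr P (F t))

end

end Pool.Agent.V1164.QD
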