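import Pool.Agent.V1164.QD.Gen

/-!
# Elliptic curves in `Eⁿ` are translates of subgroups
-/

set_option autoImplicit false

open Filter Topology

namespace Pool.Agent.V1164.QD

variable {P : PeriodPair} {n : ℕ}

lemma elliptic_closed {S : Set (Fin n → Ell P)} (h : IsElliptic S) :
    ∀ p ∈ S, ∀ q ∈ S, ∀ r ∈ S, p + q - r ∈ S := by
  obtain ⟨Q, F, hd, -, hinj, rfl⟩ := h
  have hdi : ∀ i, Differentiable ℂ (fun t => F t i) := fun i t =>
    differentiableAt_pi.mp (hd t) i
  -- the derivative is periodic
  have hper : ∀ i, ∀ t : ℂ, ∀ l ∈ Q.lattice,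
      deriv (fun t => F t i) (t + l) = deriv (fun t => F t i) t := by
    intro i t l hl
    have hmem : ∀ s, F (s + l) i - F s i ∈ P.lattice := by
      intro s
      have h1 := (hinj (s + l) s).mpr (by simpa using hl)
      exact (pr_eq_iff _ _).mp h1 i
    set k : ℂ → ℂ := fun s => F (s + l) i - F s i with hk
    have hkc : Continuous k := by
      have := (hdi i).continuous
      fun_prop
    have hloc : k =ᶠ[𝓝 t] fun _ => k t := by
      have h2 := hkc.tendsto t (eventually_mem_lattice (P := P) (k t))
      filter_upwards [h2] with s hs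
      exact (hs.mp (sub_mem (hmem s) (hmem t)))
    have h3 : HasDerivAt k 0 t := (hasDerivAt_const t (k t)).congr_of_eventuallyEq hloc
    have h4 : HasDerivAt k (deriv (fun t => F t i) (t + l) - deriv (fun t => F t i) t) t := by
      have a1 := ((hdi i) (t + l)).hasDerivAt.comp_add_const t l
      exact a1.sub ((hdi i) t).hasDerivAt
    have := h3.unique h4
    exact (sub_eq_zero.mp this.symm)
  have hconst : ∀ i, ∀ t s, deriv (fun t => F t i) t = deriv (fun t => F t i) s := by
    intro i t s
    have hdd : Differentiable ℂ (deriv (fun t => F t i)) := by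
      intro x
      have h1 : AnalyticAt ℂ (fun t => F t i) x := (hdi i).analyticAt x
      exact h1.deriv.differentiableAt
    exact hdd.apply_eq_apply_of_bounded (IsZLattice.isCompact_range_of_periodic Q.lattice _
      hdd.continuous (hper i)).isBounded t s
  have hlin : ∀ i t, F t i = deriv (fun t => F t i) 0 * t + F 0 i := by
    intro i
    set c := deriv (fun t => F t i) 0 with hc
    have h1 : ∀ t, HasDerivAt (fun t => F t i - c * t) 0 t := by
      intro t
      have a1 := ((hdi i) t).hasDerivAt
      rw [hconst i t 0, ← hc] at a1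
      have a2 := ((hasDerivAt_id' t).const_mul c)
      exact (a1.fun_sub a2).congr_deriv (by ring)
    intro t
    have h2 := is_const_of_deriv_eq_zero (f := fun t => F t i - c * t)
      (fun t => (h1 t).differentiableAt) (fun t => (h1 t).deriv) t 0
    simp only [mul_zero, sub_zero] at h2
    linear_combination h2
  rintro p ⟨t1, rfl⟩ q ⟨t2, rfl⟩ r ⟨t3, rfl⟩
  refine ⟨t1 + t2 - t3, ?_⟩
  funext i
  simp only [Pi.add_apply, Pi.sub_apply, pr_apply]
  rw [← coe_add, ← coe_sub, hlin i (t1 + t2 - t3), hlin i t1, hlin i t2, hlin i t3]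
  congr 1
  ring

end Pool.Agent.V1164.QD
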