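import Pool.Agent.V1164.QD.LB
import Pool.Agent.V1164.QD.Liou

/-!
# Adding coordinates of the form `± x_i`
-/

set_option autoImplicit false

open Filter Topology

namespace Pool.Agent.V1164.QD

noncomputable section

variable {P : PeriodPair} {n m : ℕ}

/-- the combinatorial data: the coordinate `j` of the new point is `ε j • x (κ j)` -/
structure Emb (n m : ℕ) where
  κ : Fin m → Fin n
  ε : Fin m → ℤ
  ρ : Fin n → Fin m
  hκ : ∀ i, κ (ρ i) = i
  hε : ∀ i, ε (ρ i) = 1
  hε2 : ∀ j, ε j = 1 ∨ ε j = -1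

namespace Emb

variable (D : Emb n m)

/-- the map on points -/
def φ (s : Fin n → Ell P) : Fin m → Ell P := fun j => D.ε j • s (D.κ j)

/-- the map on coordinates -/
def φC (z : Fin n → ℂ) : Fin m → ℂ := fun j => (D.ε j : ℂ) * z (D.κ j)

lemma coe_zsmul (k : ℤ) (z : ℂ) : (((k : ℂ) * z : ℂ) : Ell P) = k • (z : Ell P) := by
  have : (k : ℂ) * z = k • z := by simp
  rw [this]
  exact QuotientAddGroup.mk_zsmul P.lattice.toAddSubgroup z k

lemma pr_φC (z : Fin n → ℂ) : pr P (D.φC z) = D.φ (pr P z) := by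
  funext j
  exact coe_zsmul _ _

lemma φC_ρ (z : Fin n → ℂ) : (fun i => D.φC z (D.ρ i)) = z := by
  funext i
  simp [φC, D.hκ, D.hε]

lemma φ_ρ (s : Fin n → Ell P) : (fun i => D.φ s (D.ρ i)) = s := by
  funext i
  simp [φ, D.hκ, D.hε]

lemma continuous_φ : Continuous (D.φ (P := P)) := by
  refine continuous_pi fun j => ?_
  exact (continuous_apply (D.κ j)).zsmul _

lemma φ_add_sub (p q r : Fin n → Ell P) : D.φ (p + q - r) = D.φ p + D.φ q - D.φ r := by
  funext j
  simp [φ, smul_sub, smul_add]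

/-- the new curve -/
def image (S : Set (Fin n → Ell P)) : Set (Fin m → Ell P) := D.φ '' S

lemma mem_image {S : Set (Fin n → Ell P)} (p : Fin m → Ell P) :
    p ∈ D.image S ↔ (fun i => p (D.ρ i)) ∈ S ∧ ∀ j, p j = D.ε j • p (D.ρ (D.κ j)) := by
  constructor
  · rintro ⟨s, hs, rfl⟩
    refine ⟨by rw [D.φ_ρ]; exact hs, fun j => ?_⟩
    have := congrFun (D.φ_ρ s) (D.κ j)
    rw [this]
    rfl
  · rintro ⟨h1, h2⟩
    refine ⟨_, h1, ?_⟩
    funext j
    exact (h2 j).symm

lemma pr_mem_image {S : Set (Fin n → Ell P)} (w : Fin m → ℂ) :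
    pr P w ∈ D.image S ↔ pr P (fun i => w (D.ρ i)) ∈ S ∧
      ∀ j, w j - (D.ε j : ℂ) * w (D.ρ (D.κ j)) ∈ P.lattice := by
  rw [D.mem_image]
  have : ∀ j, (pr P w j = D.ε j • pr P w (D.ρ (D.κ j)) ↔
      w j - (D.ε j : ℂ) * w (D.ρ (D.κ j)) ∈ P.lattice) := by
    intro j
    rw [← coe_eq_iff (P := P), coe_zsmul]
    rfl
  simp only [this]
  rfl

lemma continuous_diff (j : Fin m) :
    Continuous fun w : Fin m → ℂ => w j - (D.ε j : ℂ) * w (D.ρ (D.κ j)) := by fun_prop

/-- near a point satisfying the congruences the congruences are equations -/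
lemma eventually_eq (z : Fin m → ℂ)
    (hz : ∀ j, z j - (D.ε j : ℂ) * z (D.ρ (D.κ j)) ∈ P.lattice) :
    ∀ᶠ w in 𝓝 z, ∀ j, (w j - (D.ε j : ℂ) * w (D.ρ (D.κ j)) ∈ P.lattice ↔
      w j - (D.ε j : ℂ) * w (D.ρ (D.κ j)) = z j - (D.ε j : ℂ) * z (D.ρ (D.κ j))) := by
  rw [eventually_all]
  intro j
  exact (D.continuous_diff j).tendsto z (eventually_mem_lattice' (hz j))

lemma analyticAt_restr {k : ℕ} {F : (Fin n → ℂ) → (Fin k → ℂ)} {z : Fin m → ℂ}
    (hF : AnalyticAt ℂ F (fun i => z (D.ρ i))) :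
    AnalyticAt ℂ (fun w : Fin m → ℂ => F (fun i => w (D.ρ i))) z := by
  have h1 : AnalyticAt ℂ (fun w : Fin m → ℂ => (fun i => w (D.ρ i) : Fin n → ℂ)) z := by
    rw [analyticAt_pi_iff]
    intro i
    exact (ContinuousLinearMap.proj (R := ℂ) (φ := fun _ : Fin m => ℂ) (D.ρ i)).analyticAt _
  exact AnalyticAt.fun_comp (g := F) (f := fun w : Fin m → ℂ => fun i => w (D.ρ i)) hF h1

lemma analyticAt_restr1 {F : (Fin n → ℂ) → ℂ} {z : Fin m → ℂ}
    (hF : AnalyticAt ℂ F (fun i => z (D.ρ i))) :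
    AnalyticAt ℂ (fun w : Fin m → ℂ => F (fun i => w (D.ρ i))) z := by
  have h1 : AnalyticAt ℂ (fun w : Fin m → ℂ => (fun i => w (D.ρ i) : Fin n → ℂ)) z := by
    rw [analyticAt_pi_iff]
    intro i
    exact (ContinuousLinearMap.proj (R := ℂ) (φ := fun _ : Fin m => ℂ) (D.ρ i)).analyticAt _
  exact AnalyticAt.fun_comp (g := F) (f := fun w : Fin m → ℂ => fun i => w (D.ρ i)) hF h1

lemma tendsto_restr (z : Fin m → ℂ) : Tendsto (fun w : Fin m → ℂ => (fun i => w (D.ρ i)))
    (𝓝 z) (𝓝 (fun i => z (D.ρ i))) := by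
  have : Continuous (fun w : Fin m → ℂ => (fun i => w (D.ρ i) : Fin n → ℂ)) := by fun_prop
  exact this.tendsto z

lemma isAnalytic_image {S : Set (Fin n → Ell P)} (hS : IsAnalyticSubset S) :
    IsAnalyticSubset (D.image S) := by
  intro z
  by_cases hz : ∀ j, z j - (D.ε j : ℂ) * z (D.ρ (D.κ j)) ∈ P.lattice
  · obtain ⟨k, F, hF, hF'⟩ := hS (fun i => z (D.ρ i))
    refine ⟨k + m, fun w => Fin.append (F (fun i => w (D.ρ i)))
      (fun j => w j - (D.ε j : ℂ) * w (D.ρ (D.κ j)) - (z j - (D.ε j : ℂ) * z (D.ρ (D.κ j)))),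
      ?_, ?_⟩
    · rw [analyticAt_pi_iff]
      intro l
      refine Fin.addCases (fun i => ?_) (fun j => ?_) l
      · simp only [Fin.append_left]
        have := analyticAt_pi_iff.mp (D.analyticAt_restr hF) i
        exact this
      · simp only [Fin.append_right]
        have h1 : ∀ l : Fin m, AnalyticAt ℂ (fun w : Fin m → ℂ => w l) z := fun l =>
          (ContinuousLinearMap.proj (R := ℂ) (φ := fun _ : Fin m => ℂ) l).analyticAt _
        exact ((h1 j).fun_sub (analyticAt_const.fun_mul (h1 _))).fun_sub analyticAt_const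
    · filter_upwards [D.tendsto_restr z hF', D.eventually_eq z hz] with w h1 h2
      have h1' : pr P (fun i => w (D.ρ i)) ∈ S ↔ F (fun i => w (D.ρ i)) = 0 := h1
      rw [D.pr_mem_image, h1']
      constructor
      · rintro ⟨h3, h4⟩
        funext l
        refine Fin.addCases (fun i => ?_) (fun j => ?_) l
        · simp only [Fin.append_left]
          exact congrFun h3 i
        · simp only [Fin.append_right]
          exact sub_eq_zero.mpr ((h2 j).mp (h4 j))
      · intro h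
        constructor
        · funext i
          have := congrFun h (Fin.castAdd m i)
          simp only [Fin.append_left] at this
          exact this
        · intro j
          rw [h2 j]
          have := congrFun h (Fin.natAdd k j)
          simp only [Fin.append_right, Pi.zero_apply] at this
          exact sub_eq_zero.mp this
  · push Not at hz
    obtain ⟨j, hj⟩ := hz
    refine ⟨1, fun _ _ => 1, analyticAt_const, ?_⟩
    filter_upwards [(D.continuous_diff j).tendsto z (eventually_notMem_lattice hj)] with w hw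
    rw [D.pr_mem_image]
    constructor
    · intro h
      exact absurd (h.2 j) hw
    · intro h
      exact absurd (congrFun h 0) one_ne_zero

lemma isSmooth_image {S : Set (Fin n → Ell P)} {s : Fin n → Ell P}
    (h : IsSmoothCurveAt S s) : IsSmoothCurveAt (D.image S) (D.φ s) := by
  obtain ⟨z, i, g, rfl, hg, hgi, hev⟩ := h
  refine ⟨D.φC z, D.ρ i, fun t => D.φC (g t), D.pr_φC z, ?_, ?_, ?_⟩
  · rw [congrFun (D.φC_ρ z) i]
    rw [analyticAt_pi_iff] at hg ⊢
    intro j
    exact analyticAt_const.fun_mul (hg _)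
  · intro t
    exact (congrFun (D.φC_ρ (g t)) i).trans (hgi t)
  · have hz : ∀ j, D.φC z j - (D.ε j : ℂ) * D.φC z (D.ρ (D.κ j)) = 0 := by
      intro j
      rw [congrFun (D.φC_ρ z) (D.κ j)]
      exact sub_self _
    have hz' : ∀ j, D.φC z j - (D.ε j : ℂ) * D.φC z (D.ρ (D.κ j)) ∈ P.lattice := by
      intro j; rw [hz j]; exact zero_mem _
    have hev' : ∀ᶠ w in 𝓝 (fun i => D.φC z (D.ρ i)), (pr P w ∈ S ↔ w = g (w i)) := by
      rw [D.φC_ρ]; exact hev
    filter_upwards [D.tendsto_restr (D.φC z) hev', D.eventually_eq (D.φC z) hz'] with w h1 h2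
    have h1' : pr P (fun i => w (D.ρ i)) ∈ S ↔ (fun i => w (D.ρ i)) = g (w (D.ρ i)) := h1
    rw [D.pr_mem_image, h1']
    constructor
    · rintro ⟨h3, h4⟩
      funext j
      have h5 := (h2 j).mp (h4 j)
      rw [hz j] at h5
      rw [sub_eq_zero.mp h5]
      simp only [φC]
      rw [← congrFun h3 (D.κ j)]
    · intro h
      constructor
      · funext l
        have := congrFun h (D.ρ l)
        rw [this]
        exact congrFun (D.φC_ρ _) l
      · intro j
        rw [h2 j, hz j]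
        have a1 := congrFun h j
        have a2 := congrFun h (D.ρ (D.κ j))
        rw [congrFun (D.φC_ρ _) (D.κ j)] at a2
        rw [a2, a1]
        exact sub_self _

lemma isCurve_image {S : Set (Fin n → Ell P)} (hS : IsIrreducibleCurve S) :
    IsIrreducibleCurve (D.image S) := by
  obtain ⟨F, hF, h1, h2, h3⟩ := hS.regular
  have hinj : Function.Injective (D.φ (P := P)) := by
    intro a b hab
    rw [← D.φ_ρ a, ← D.φ_ρ b, hab]
  have hdiff : D.image S \ (D.φ '' F) = D.φ '' (S \ F) := (Set.image_sdiff hinj S F).symm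
  refine ⟨D.isAnalytic_image hS.analytic, D.φ '' F, hF.image _, ?_, ?_, ?_⟩
  · rw [hdiff]
    rintro p ⟨s, hs, rfl⟩
    exact D.isSmooth_image (h1 s hs)
  · rw [hdiff]
    exact h2.image _ D.continuous_φ.continuousOn
  · rw [hdiff]
    refine (Set.image_mono h3).trans ?_
    exact image_closure_subset_closure_image D.continuous_φ

lemma not_elliptic_image {S : Set (Fin n → Ell P)}
    (h : ¬ ∀ p ∈ S, ∀ q ∈ S, ∀ r ∈ S, p + q - r ∈ S) : ¬ IsElliptic (D.image S) := by
  intro h'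
  apply h
  intro p hp q hq r hr
  have h1 := elliptic_closed h' (D.φ p) ⟨p, hp, rfl⟩ (D.φ q) ⟨q, hq, rfl⟩ (D.φ r) ⟨r, hr, rfl⟩
  rw [← D.φ_add_sub, D.mem_image, D.φ_ρ] at h1
  exact h1.1

/-- symmetric line bundles: trivializations extend to the new coordinates -/
lemma triv_image (T : PoleFun P) (hT : ∀ z, T.f (-z) ^ 2 = T.f z ^ 2) {S : Set (Fin n → Ell P)}
    (a b : Fin m) {N : ℕ} {s : T.bundle.I → T.bundle.I → (Fin n → Ell P) → ℂ}
    (h : IsTrivialization T.bundle S (D.κ a) (D.κ b) N s) :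
    IsTrivialization T.bundle (D.image S) a b (2 * N)
      (fun i j p => s i j (fun l => p (D.ρ l)) ^ 2) := by
  have hE : ∀ x : Ell P, T.E (-x) ^ 2 = T.E x ^ 2 := by
    intro x
    obtain ⟨z, rfl⟩ := exists_coe x
    rw [← coe_neg, T.E_coe, T.E_coe, hT]
  have hsign : ∀ (p : Fin m → Ell P) (_ : p ∈ D.image S) (j : Fin m),
      p j = p (D.ρ (D.κ j)) ∨ p j = -p (D.ρ (D.κ j)) := by
    intro p hp j
    have := ((D.mem_image p).mp hp).2 j
    rcases D.hε2 j with h1 | h1
    · left; rw [this, h1, one_smul]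
    · right; rw [this, h1, neg_smul, one_smul]
  have hE0 : ∀ x : Ell P, T.E (-x) = 0 ↔ T.E x = 0 := by
    intro x
    have := hE x
    rw [← sq_eq_zero_iff, this, sq_eq_zero_iff]
  have hU : ∀ (i : Bool) (x : Ell P), -x ∈ T.bundle.U i ↔ x ∈ T.bundle.U i := by
    intro i x
    cases i
    · change -x ≠ 0 ↔ x ≠ 0
      rw [ne_eq, neg_eq_zero]
    · change (-x = 0 ∨ T.E (-x) ≠ 0) ↔ (x = 0 ∨ T.E x ≠ 0)
      rw [neg_eq_zero, ne_eq, hE0]
  have hU' : ∀ (p : Fin m → Ell P) (_ : p ∈ D.image S) (j : Fin m) (i : Bool),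
      p j ∈ T.bundle.U i → p (D.ρ (D.κ j)) ∈ T.bundle.U i := by
    intro p hp j i hj
    rcases hsign p hp j with h1 | h1
    · rwa [h1] at hj
    · rwa [h1, hU] at hj
  have hg : ∀ (i i' : Bool) (x : Ell P), T.bundle.g i i' (-x) ^ 2 = T.bundle.g i i' x ^ 2 := by
    intro i i' x
    cases i <;> cases i'
    · rfl
    · exact hE x
    · change ((T.E (-x))⁻¹) ^ 2 = ((T.E x)⁻¹) ^ 2
      rw [inv_pow, inv_pow, hE]
    · rfl
  have hg' : ∀ (p : Fin m → Ell P) (_ : p ∈ D.image S) (j : Fin m) (i i' : Bool),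
      T.bundle.g i i' (p j) ^ 2 = T.bundle.g i i' (p (D.ρ (D.κ j))) ^ 2 := by
    intro p hp j i i'
    rcases hsign p hp j with h1 | h1
    · rw [h1]
    · rw [h1, hg]
  have hm : ∀ p ∈ D.image S, (fun l => p (D.ρ l)) ∈ S := fun p hp => ((D.mem_image p).mp hp).1
  refine ⟨?_, ?_, ?_⟩
  · intro i j p hp hi hj
    have h1 := h.hol i j _ (hm p hp) (hU' p hp a i hi) (hU' p hp b j hj)
    obtain ⟨z, H, hz, hH, hev⟩ := h1
    refine ⟨D.φC z, fun w => H (fun l => w (D.ρ l)) ^ 2, ?_, ?_, ?_⟩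
    · rw [D.pr_φC, hz]
      funext l
      exact (((D.mem_image p).mp hp).2 l).symm
    · have h2 : AnalyticAt ℂ H (fun i => D.φC z (D.ρ i)) := by rw [D.φC_ρ]; exact hH
      exact (D.analyticAt_restr1 h2).pow 2
    · have h2 : ∀ᶠ w in 𝓝 (fun i => D.φC z (D.ρ i)), pr P w ∈ S → s i j (pr P w) = H w := by
        rw [D.φC_ρ]; exact hev
      filter_upwards [D.tendsto_restr (D.φC z) h2] with w hw hw'
      have h3 : pr P (fun l => w (D.ρ l)) ∈ S := ((D.pr_mem_image w).mp hw').1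
      have h4 : s i j (pr P (fun l => w (D.ρ l))) = H (fun l => w (D.ρ l)) := hw h3
      change s i j (pr P (fun l => w (D.ρ l))) ^ 2 = _
      rw [h4]
  · intro i j p hp hi hj
    exact pow_ne_zero _ (h.ne_zero i j _ (hm p hp) (hU' p hp a i hi) (hU' p hp b j hj))
  · intro i j i' j' p hp hi hi' hj hj'
    have h1 := h.trans i j i' j' _ (hm p hp) (hU' p hp a i hi) (hU' p hp a i' hi')
      (hU' p hp b j hj) (hU' p hp b j' hj')
    rw [h1, mul_pow, ← pow_mul, mul_comm N 2, pow_mul, pow_mul, div_pow, div_pow]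
    have e1 := hg' p hp a i i'
    have e2 := hg' p hp b j j'
    congr 1
    rw [div_pow, e1, e2, div_pow]

end Emb

end

end Pool.Agent.V1164.QD
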