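import Pool.Agent.V1164.QD.Defs

/-!
# General lemmas on the quotient `ℂ / Λ`
-/

set_option autoImplicit false

open Filter Topology

namespace Pool.Agent.V1164.QD

variable {P : PeriodPair} {n : ℕ}

lemma coe_eq_iff (z w : ℂ) : (z : Ell P) = (w : Ell P) ↔ z - w ∈ P.lattice := by
  rw [QuotientAddGroup.eq]
  constructor
  · intro h
    have := P.lattice.toAddSubgroup.neg_mem h
    have e : -(-z + w) = z - w := by ring
    rw [e] at this
    exact this
  · intro h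
    have := P.lattice.toAddSubgroup.neg_mem (show z - w ∈ P.lattice.toAddSubgroup from h)
    have e : -(z - w) = -z + w := by ring
    rw [e] at this
    exact this

lemma coe_eq_zero_iff (z : ℂ) : (z : Ell P) = 0 ↔ z ∈ P.lattice := by
  have := coe_eq_iff (P := P) z 0
  simpa using this

lemma coe_add (z w : ℂ) : ((z + w : ℂ) : Ell P) = (z : Ell P) + (w : Ell P) := rfl

lemma coe_sub (z w : ℂ) : ((z - w : ℂ) : Ell P) = (z : Ell P) - (w : Ell P) := rfl

lemma coe_neg (z : ℂ) : ((-z : ℂ) : Ell P) = -(z : Ell P) := rfl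

lemma exists_coe (x : Ell P) : ∃ z : ℂ, (z : Ell P) = x := QuotientAddGroup.mk_surjective x

lemma exists_pr (p : Fin n → Ell P) : ∃ z : Fin n → ℂ, pr P z = p := by
  choose z hz using fun i => exists_coe (p i)
  exact ⟨z, funext hz⟩

lemma pr_apply (z : Fin n → ℂ) (i : Fin n) : pr P z i = (z i : Ell P) := rfl

lemma pr_eq_iff (z w : Fin n → ℂ) : pr P z = pr P w ↔ ∀ i, z i - w i ∈ P.lattice := by
  rw [funext_iff]
  exact forall_congr' fun i => coe_eq_iff _ _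

lemma continuous_coe : Continuous (fun z : ℂ => (z : Ell P)) := continuous_quotient_mk'

lemma isOpenMap_coe : IsOpenMap (fun z : ℂ => (z : Ell P)) := QuotientAddGroup.isOpenMap_coe

lemma continuous_pr : Continuous (fun z : Fin n → ℂ => pr P z) :=
  continuous_pi fun i => continuous_coe.comp (continuous_apply i)

lemma isClosed_lattice' : IsClosed (P.lattice.toAddSubgroup : Set ℂ) := P.isClosed_lattice

instance : T2Space (Ell P) := by
  haveI : IsClosed (P.lattice.toAddSubgroup : Set ℂ) := isClosed_lattice'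
  infer_instance

/-- near a point, two numbers congruent modulo the lattice are equal -/
lemma eventually_mem_lattice (z : ℂ) : ∀ᶠ w in 𝓝 z, (w - z ∈ P.lattice ↔ w = z) := by
  have h := P.compl_lattice_sdiff_singleton_mem_nhds 0
  have h2 : Tendsto (fun w : ℂ => w - z) (𝓝 z) (𝓝 0) := by
    have : Tendsto (fun w : ℂ => w - z) (𝓝 z) (𝓝 (z - z)) := by
      exact (continuous_id.sub continuous_const).tendsto z
    simpa using this
  filter_upwards [h2 h] with w hw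
  constructor
  · intro h1
    by_contra h3
    apply hw
    refine ⟨h1, ?_⟩
    simp only [Set.mem_singleton_iff]
    exact fun h4 => h3 (sub_eq_zero.mp h4)
  · rintro rfl
    simp

/-- near a point of the lattice, the only point of the lattice is this point. -/
lemma eventually_mem_lattice' {z : ℂ} (hz : z ∈ P.lattice) :
    ∀ᶠ w in 𝓝 z, (w ∈ P.lattice ↔ w = z) := by
  filter_upwards [eventually_mem_lattice (P := P) z] with w hw
  rw [← hw]
  constructor
  · intro h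
    exact sub_mem h hz
  · intro h
    have := add_mem h hz
    simpa using this

lemma eventually_notMem_lattice {z : ℂ} (hz : z ∉ P.lattice) : ∀ᶠ w in 𝓝 z, w ∉ P.lattice :=
  P.isClosed_lattice.isOpen_compl.mem_nhds hz

lemma exists_bounded : ∃ K : Set ℂ, IsCompact K ∧ ∀ x : Ell P, ∃ z ∈ K, (z : Ell P) = x := by
  refine ⟨closure (ZSpan.fundamentalDomain P.basis), ?_, ?_⟩
  · exact (ZSpan.fundamentalDomain_isBounded P.basis).isCompact_closure
  · intro x
    obtain ⟨z, rfl⟩ := exists_coe x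
    refine ⟨ZSpan.fract P.basis z, subset_closure (ZSpan.fract_mem_fundamentalDomain P.basis z), ?_⟩
    rw [coe_eq_iff]
    have h : ZSpan.fract P.basis z - z = -(ZSpan.floor P.basis z : ℂ) := by
      rw [ZSpan.fract_apply]; ring
    rw [h]
    refine neg_mem ?_
    have h2 := (ZSpan.floor P.basis z).2
    rw [P.lattice_eq_span_range_basis]
    exact h2

instance : CompactSpace (Ell P) := by
  obtain ⟨K, hK, h⟩ := exists_bounded (P := P)
  refine ⟨?_⟩
  have : (Set.univ : Set (Ell P)) = (fun z : ℂ => (z : Ell P)) '' K := by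
    ext x
    simp only [Set.mem_univ, Set.mem_image, true_iff]
    exact h x
  rw [this]
  exact hK.image continuous_coe

lemma isOpenMap_pr : IsOpenMap (fun z : Fin n → ℂ => pr P z) := by
  have := IsOpenMap.piMap (ι := Fin n) (f := fun _ => fun z : ℂ => (z : Ell P))
    (fun _ => isOpenMap_coe) (by simp)
  exact this

lemma IsAnalyticSubset.isClosed {S : Set (Fin n → Ell P)} (h : IsAnalyticSubset S) :
    IsClosed S := by
  rw [← isOpen_compl_iff]
  have h1 : IsOpen {z : Fin n → ℂ | pr P z ∉ S} := by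
    rw [isOpen_iff_mem_nhds]
    intro z hz
    obtain ⟨m, F, hF, hF'⟩ := h z
    have h2 : F z ≠ 0 := fun h3 => hz (hF'.self_of_nhds.mpr h3)
    filter_upwards [hF', hF.continuousAt.eventually_ne h2] with w hw hw'
    exact fun h3 => hw' (hw.mp h3)
  have h2 : Sᶜ = (fun z : Fin n → ℂ => pr P z) '' {z : Fin n → ℂ | pr P z ∉ S} := by
    ext p
    constructor
    · intro hp
      obtain ⟨z, rfl⟩ := exists_pr p
      exact ⟨z, hp, rfl⟩
    · rintro ⟨z, hz, rfl⟩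
      exact hz
  rw [h2]
  exact isOpenMap_pr _ h1

lemma isPreconnected_univ_Ell : IsPreconnected (Set.univ : Set (Ell P)) := by
  have h := (isPreconnected_univ (α := ℂ)).image (fun z : ℂ => (z : Ell P))
    continuous_coe.continuousOn
  rw [Set.image_univ, Set.range_eq_univ.mpr exists_coe] at h
  exact h

/-- the implicit function theorem in two variables -/
lemma ift {F : ℂ × ℂ → ℂ} {u : ℂ × ℂ} (hF : AnalyticAt ℂ F u) (h0 : F u = 0)
    {d : ℂ} (hd : HasDerivAt (fun y => F (u.1, y)) d u.2) (hne : d ≠ 0) :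
    ∃ ψ : ℂ → ℂ, AnalyticAt ℂ ψ u.1 ∧ ψ u.1 = u.2 ∧ ∀ᶠ v in 𝓝 u, (F v = 0 ↔ v.2 = ψ v.1) := by
  have cdf : ContDiffAt ℂ ⊤ F u := hF.contDiffAt
  have pn : (⊤ : WithTop ℕ∞) ≠ 0 := by simp
  have hcomp : HasFDerivAt (fun y => F (u.1, y))
      ((fderiv ℂ F u) ∘L (.inr ℂ ℂ ℂ)) u.2 := by
    have h1 : HasFDerivAt F (fderiv ℂ F u) (u.1, u.2) := hF.differentiableAt.hasFDerivAt
    exact h1.comp u.2 (hasFDerivAt_prodMk_right u.1 u.2)
  have hval : ((fderiv ℂ F u) ∘L (.inr ℂ ℂ ℂ)) 1 = d := by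
    have h2 := hcomp.hasDerivAt
    exact h2.unique hd
  have if₂ : ((fderiv ℂ F u) ∘L (.inr ℂ ℂ ℂ)).IsInvertible := by
    refine ⟨ContinuousLinearEquiv.unitsEquivAut ℂ (Units.mk0 d hne), ?_⟩
    ext
    rw [hval]
    simp
  refine ⟨cdf.implicitFunction pn if₂, ?_, cdf.implicitFunction_apply_self pn if₂, ?_⟩
  · have := cdf.contDiffAt_implicitFunction pn if₂
    exact this.analyticAt
  · filter_upwards [cdf.eventually_apply_eq_iff_implicitFunction pn if₂] with v hv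
    rw [h0] at hv
    rw [hv, eq_comm]

/-- a criterion for connectedness of a double covering -/
lemma preconnected_of_double {X B : Type*} [TopologicalSpace X] [CompactSpace X]
    [TopologicalSpace B] [T2Space B] {A : Set X} (hA : IsClosed A) {U : Set B}
    (hU : IsPreconnected U) {π : X → B} (hπ : Continuous π) {τ : X → X} (hτ : Continuous τ)
    (hτA : ∀ s ∈ A, π s ∈ U → τ s ∈ A) (hπτ : ∀ s ∈ A, π s ∈ U → π (τ s) = π s)
    (hsurj : ∀ u ∈ U, ∃ s ∈ A, π s = u)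
    (hfib : ∀ s ∈ A, ∀ s' ∈ A, π s ∈ U → π s = π s' → s' = s ∨ s' = τ s)
    {s₀ : X} (hs₀ : s₀ ∈ A) (hs₀U : π s₀ ∈ U) (hs₀τ : τ s₀ = s₀) :
    IsPreconnected (A ∩ π ⁻¹' U) := by
  rw [isPreconnected_closed_iff]
  intro t t' ht ht' hcov hne hne'
  by_contra hdis
  rw [Set.not_nonempty_iff_eq_empty] at hdis
  have hd : ∀ s ∈ A, π s ∈ U → s ∈ t → s ∈ t' → False := by
    intro s h1 h2 h3 h4
    have : s ∈ A ∩ π ⁻¹' U ∩ (t ∩ t') := ⟨⟨h1, h2⟩, h3, h4⟩
    rw [hdis] at this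
    exact this
  have hc : ∀ s ∈ A, π s ∈ U → s ∈ t ∨ s ∈ t' := fun s h1 h2 => hcov ⟨h1, h2⟩
  -- the closed sets
  have hcl : ∀ K : Set X, IsClosed K → IsClosed (π '' K) := fun K hK =>
    (hK.isCompact.image hπ).isClosed
  set M : Set B := π '' (A ∩ t) ∩ π '' (A ∩ t') with hM
  set N : Set B := π '' (A ∩ (t ∩ τ ⁻¹' t)) ∪ π '' (A ∩ (t' ∩ τ ⁻¹' t')) with hN
  have hMc : IsClosed M := (hcl _ (hA.inter ht)).inter (hcl _ (hA.inter ht'))
  have hNc : IsClosed N := (hcl _ (hA.inter (ht.inter (ht.preimage hτ)))).union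
    (hcl _ (hA.inter (ht'.inter (ht'.preimage hτ))))
  rw [isPreconnected_closed_iff] at hU
  have hMne : (U ∩ M).Nonempty := by
    obtain ⟨a, ⟨ha1, ha2⟩, ha3⟩ := hne
    obtain ⟨b, ⟨hb1, hb2⟩, hb3⟩ := hne'
    have := hU (π '' (A ∩ t)) (π '' (A ∩ t')) (hcl _ (hA.inter ht)) (hcl _ (hA.inter ht'))
      ?_ ⟨π a, ha2, a, ⟨ha1, ha3⟩, rfl⟩ ⟨π b, hb2, b, ⟨hb1, hb3⟩, rfl⟩
    · exact this
    · intro u hu
      obtain ⟨s, hs, rfl⟩ := hsurj u hu
      rcases hc s hs hu with h | h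
      · exact Or.inl ⟨s, ⟨hs, h⟩, rfl⟩
      · exact Or.inr ⟨s, ⟨hs, h⟩, rfl⟩
  have hNne : (U ∩ N).Nonempty := by
    refine ⟨π s₀, hs₀U, ?_⟩
    rcases hc s₀ hs₀ hs₀U with h | h
    · exact Or.inl ⟨s₀, ⟨hs₀, h, by simpa [hs₀τ] using h⟩, rfl⟩
    · exact Or.inr ⟨s₀, ⟨hs₀, h, by simpa [hs₀τ] using h⟩, rfl⟩
  have hcovMN : U ⊆ M ∪ N := by
    intro u hu
    obtain ⟨s, hs, rfl⟩ := hsurj u hu
    have hτs := hτA s hs hu
    have hτu : π (τ s) ∈ U := by rw [hπτ s hs hu]; exact hu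
    rcases hc s hs hu with h | h
    · rcases hc (τ s) hτs hτu with h' | h'
      · exact Or.inr (Or.inl ⟨s, ⟨hs, h, h'⟩, rfl⟩)
      · exact Or.inl ⟨⟨s, ⟨hs, h⟩, rfl⟩, ⟨τ s, ⟨hτs, h'⟩, hπτ s hs hu⟩⟩
    · rcases hc (τ s) hτs hτu with h' | h'
      · exact Or.inl ⟨⟨τ s, ⟨hτs, h'⟩, hπτ s hs hu⟩, ⟨s, ⟨hs, h⟩, rfl⟩⟩
      · exact Or.inr (Or.inr ⟨s, ⟨hs, h, h'⟩, rfl⟩)
  obtain ⟨u, hu, ⟨⟨a, ⟨ha1, ha2⟩, ha3⟩, ⟨b, ⟨hb1, hb2⟩, hb3⟩⟩, hN'⟩ :=
    hU M N hMc hNc hcovMN hMne hNne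
  rcases hN' with ⟨s, ⟨hs, hst, hsτ⟩, hsu⟩ | ⟨s, ⟨hs, hst, hsτ⟩, hsu⟩
  · have hsU : π s ∈ U := by rw [hsu]; exact hu
    have hbU : π b ∈ U := by rw [hb3]; exact hu
    rcases hfib s hs b hb1 hsU (by rw [hsu, hb3]) with h | h
    · exact hd b hb1 hbU (h ▸ hst) hb2
    · exact hd b hb1 hbU (h ▸ hsτ) hb2
  · have hsU : π s ∈ U := by rw [hsu]; exact hu
    have haU : π a ∈ U := by rw [ha3]; exact hu
    rcases hfib s hs a ha1 hsU (by rw [hsu, ha3]) with h | h
    · exact hd a ha1 haU ha2 (h ▸ hst)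
    · exact hd a ha1 haU ha2 (h ▸ hsτ)

end Pool.Agent.V1164.QD
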