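import Pool.Agent.V1164.QD.Gen

/-!
# The line bundle of poles of a periodic function with poles at the lattice points only
-/

set_option autoImplicit false

open Filter Topology

namespace Pool.Agent.V1164.QD

noncomputable section

variable {P : PeriodPair} {n : ℕ}

/-- periodic functions which are holomorphic outside the lattice and have a pole of order `d ≥ 1` at
the lattice points -/
structure PoleFun (P : PeriodPair) where
  f : ℂ → ℂ
  per : ∀ z, ∀ l ∈ P.lattice, f (z + l) = f z
  an : ∀ z, z ∉ P.lattice → AnalyticAt ℂ f z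
  d : ℕ
  hd : d ≠ 0
  q : ℂ → ℂ
  hq : AnalyticAt ℂ q 0
  hq0 : q 0 ≠ 0
  near : ∀ᶠ z in 𝓝 (0 : ℂ), z ≠ 0 → f z * z ^ d = q z

namespace PoleFun

variable (T : PoleFun P)

/-- the function on `E` -/
def E (x : Ell P) : ℂ := T.f (Classical.choose (exists_coe x))

lemma E_coe (z : ℂ) : T.E (z : Ell P) = T.f z := by
  unfold E
  have h := Classical.choose_spec (exists_coe (z : Ell P))
  rw [coe_eq_iff] at h
  have := T.per z _ h
  rw [← this]
  congr 1
  ring

lemma near_ne : ∀ᶠ z in 𝓝 (0 : ℂ), z ≠ 0 → T.f z ≠ 0 := by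
  filter_upwards [T.near, T.hq.continuousAt.eventually_ne T.hq0] with z h1 h2 h3 h4
  have := h1 h3
  rw [h4, zero_mul] at this
  exact h2 this.symm

/-- the inverse of the function near zero -/
lemma near_inv : ∃ r : ℂ → ℂ, AnalyticAt ℂ r 0 ∧ r 0 = 0 ∧
    ∀ᶠ z in 𝓝 (0 : ℂ), z ≠ 0 → (T.f z)⁻¹ = r z := by
  refine ⟨fun z => z ^ T.d / T.q z, ?_, ?_, ?_⟩
  · exact (analyticAt_id.pow _).div T.hq T.hq0
  · simp [T.hd]
  · filter_upwards [T.near, T.near_ne, T.hq.continuousAt.eventually_ne T.hq0] with z h1 h2 h3 h4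
    rw [← h1 h4]
    have a := h2 h4
    have b := pow_ne_zero T.d h4
    field_simp

/-- the open sets of the covering -/
def U : Bool → Set (Ell P)
  | false => {x | x ≠ 0}
  | true => {x | x = 0 ∨ T.E x ≠ 0}

/-- the transition functions -/
def g : Bool → Bool → Ell P → ℂ
  | false, false => fun _ => 1
  | true, true => fun _ => 1
  | false, true => T.E
  | true, false => fun x => (T.E x)⁻¹

lemma isOpen_iff (V : Set (Ell P)) : IsOpen V ↔ IsOpen {z : ℂ | (z : Ell P) ∈ V} :=
  (isQuotientMap_quotient_mk'.isOpen_preimage (s := V)).symm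

lemma mem_lattice_add {z l : ℂ} (hl : l ∈ P.lattice) : z + l ∈ P.lattice ↔ z ∈ P.lattice := by
  constructor
  · intro h; simpa using sub_mem h hl
  · intro h; exact add_mem h hl

lemma near_of {z : ℂ} {p : ℂ → Prop} (hp : ∀ᶠ w in 𝓝 (0 : ℂ), p w) :
    ∀ᶠ w in 𝓝 z, p (w - z) := by
  have h2 : Tendsto (fun w : ℂ => w - z) (𝓝 z) (𝓝 0) := by
    have : Tendsto (fun w : ℂ => w - z) (𝓝 z) (𝓝 (z - z)) :=
      (continuous_id.sub continuous_const).tendsto z
    simpa using this
  exact h2 hp

lemma f_sub {z w : ℂ} (hz : z ∈ P.lattice) : T.f (w - z) = T.f w := by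
  have := T.per w _ (neg_mem hz)
  rw [← this]
  congr 1

lemma near_ne' {z : ℂ} (hz : z ∈ P.lattice) : ∀ᶠ w in 𝓝 z, w ≠ z → T.f w ≠ 0 := by
  filter_upwards [near_of (z := z) T.near_ne] with w hw h
  rw [T.f_sub hz] at hw
  exact hw (sub_ne_zero.mpr h)

lemma near_inv' {z : ℂ} (hz : z ∈ P.lattice) : ∃ r : ℂ → ℂ, AnalyticAt ℂ r z ∧ r z = 0 ∧
    ∀ᶠ w in 𝓝 z, w ≠ z → (T.f w)⁻¹ = r w := by
  obtain ⟨r, h1, h2, h3⟩ := T.near_inv
  refine ⟨fun w => r (w - z), ?_, by simpa using h2, ?_⟩
  · have h4 : AnalyticAt ℂ (fun w : ℂ => w - z) z := analyticAt_id.fun_sub analyticAt_const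
    exact AnalyticAt.fun_comp (g := r) (f := fun w => w - z) (by simpa using h1) h4
  · filter_upwards [near_of (z := z) h3] with w hw h
    rw [T.f_sub hz] at hw
    exact hw (sub_ne_zero.mpr h)

lemma isOpen_U (i : Bool) : IsOpen (T.U i) := by
  rw [isOpen_iff]
  cases i
  · have : {z : ℂ | (z : Ell P) ∈ T.U false} = (P.lattice : Set ℂ)ᶜ := by
      ext z
      simp only [U, Set.mem_ofPred_eq, Set.mem_compl_iff, SetLike.mem_coe, ne_eq, coe_eq_zero_iff]
    rw [this]
    exact P.isClosed_lattice.isOpen_compl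
  · rw [isOpen_iff_mem_nhds]
    intro z hz
    have hz' : (z : Ell P) = 0 ∨ T.E (z : Ell P) ≠ 0 := hz
    rw [coe_eq_zero_iff, T.E_coe] at hz'
    by_cases hzl : z ∈ P.lattice
    · filter_upwards [T.near_ne' hzl] with w hw
      change (w : Ell P) = 0 ∨ T.E (w : Ell P) ≠ 0
      rw [coe_eq_zero_iff, T.E_coe]
      by_cases h : w = z
      · left; rw [h]; exact hzl
      · right; exact hw h
    · have hf : T.f z ≠ 0 := by tauto
      filter_upwards [(T.an z hzl).continuousAt.eventually_ne hf] with w hw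
      change (w : Ell P) = 0 ∨ T.E (w : Ell P) ≠ 0
      rw [coe_eq_zero_iff, T.E_coe]
      right; exact hw

/-- the line bundle: the pull back of `O(1)` along the map to the projective line given by the
function; it is `O(d • [0])`. -/
def bundle : LineBundle P where
  I := Bool
  U := T.U
  g := T.g
  isOpen := T.isOpen_U
  cover := by
    intro x
    by_cases h : x = 0
    · exact ⟨true, Or.inl h⟩
    · exact ⟨false, h⟩
  hol := by
    intro i j x hi hj
    obtain ⟨z, rfl⟩ := exists_coe x
    refine ⟨z, rfl, ?_⟩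
    cases i <;> cases j
    · exact analyticAt_const
    · simp only [U, Set.mem_ofPred_eq, ne_eq, coe_eq_zero_iff] at hi
      simp only [g, T.E_coe]
      exact T.an z hi
    · simp only [U, Set.mem_ofPred_eq, ne_eq, coe_eq_zero_iff, T.E_coe] at hi hj
      simp only [g, T.E_coe]
      exact (T.an z hj).inv (by tauto)
    · exact analyticAt_const
  ne_zero := by
    intro i j x hi hj
    cases i <;> cases j
    · exact one_ne_zero
    · simp only [U, Set.mem_ofPred_eq, ne_eq] at hi hj
      simp only [g]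
      tauto
    · simp only [U, Set.mem_ofPred_eq, ne_eq] at hi hj
      simp only [g]
      exact inv_ne_zero (by tauto)
    · exact one_ne_zero
  cocycle := by
    intro i j k x hi hj hk
    have key : x ∈ T.U false → x ∈ T.U true → T.E x ≠ 0 := by
      intro h1 h2
      simp only [U, Set.mem_ofPred_eq, ne_eq] at h1 h2
      tauto
    cases i <;> cases j <;> cases k <;> simp only [g, one_mul, mul_one]
    · exact mul_inv_cancel₀ (key hi hj)
    · exact inv_mul_cancel₀ (key hj hi)

lemma isAmple_bundle : T.bundle.IsAmple := by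
  classical
  refine ⟨1, le_rfl, fun i => match i with
    | false => fun _ => 1
    | true => fun x => if x = 0 then 0 else (T.E x)⁻¹, ⟨?_, ?_⟩, ⟨true, 0, Or.inl rfl, ?_⟩, ?_⟩
  · intro i x hx
    obtain ⟨z, rfl⟩ := exists_coe x
    refine ⟨z, rfl, ?_⟩
    cases i
    · exact analyticAt_const
    · simp only [coe_eq_zero_iff, T.E_coe]
      have hx' : z ∈ P.lattice ∨ T.f z ≠ 0 := by
        have : (z : Ell P) = 0 ∨ T.E (z : Ell P) ≠ 0 := hx
        rwa [coe_eq_zero_iff, T.E_coe] at this
      by_cases hz : z ∈ P.lattice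
      · obtain ⟨r, h1, h2, h3⟩ := T.near_inv' hz
        refine h1.congr ?_
        filter_upwards [h3, eventually_mem_lattice' hz] with w hw hw'
        by_cases h : w = z
        · rw [if_pos (hw'.mpr h), h, h2]
        · rw [if_neg (fun h' => h (hw'.mp h')), hw h]
      · have hne : T.f z ≠ 0 := by tauto
        refine ((T.an z hz).inv hne).congr ?_
        filter_upwards [eventually_notMem_lattice hz] with w hw
        rw [if_neg hw]
        rfl
  · intro i j x hi hj
    have key : x ∈ T.U false → x ∈ T.U true → x ≠ 0 ∧ T.E x ≠ 0 := by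
      intro h1 h2
      simp only [U, Set.mem_ofPred_eq, ne_eq] at h1 h2
      tauto
    rw [pow_one]
    cases i <;> cases j
    · exact (one_mul _).symm
    · obtain ⟨h1, h2⟩ := key hi hj
      change (1 : ℂ) = T.E x * (if x = 0 then 0 else (T.E x)⁻¹)
      rw [if_neg h1, mul_inv_cancel₀ h2]
    · obtain ⟨h1, h2⟩ := key hj hi
      change (if x = 0 then 0 else (T.E x)⁻¹) = (T.E x)⁻¹ * 1
      rw [if_neg h1, mul_one]
    · exact (one_mul _).symm
  · simp
  · refine ⟨false, ((P.ω₁ / 2 : ℂ) : Ell P), ?_, one_ne_zero⟩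
    change ((P.ω₁ / 2 : ℂ) : Ell P) ≠ 0
    rw [ne_eq, coe_eq_zero_iff]
    exact P.ω₁_div_two_notMem_lattice

end PoleFun

/-! ### trivializations -/

lemma triv_self (L : LineBundle P) (S : Set (Fin n → Ell P)) (a : Fin n) :
    IsTrivialization L S a a 1 (fun i j p => L.g i j (p a)) := by
  refine ⟨?_, ?_, ?_⟩
  · intro i j p hp hi hj
    obtain ⟨z, hz, hz'⟩ := L.hol i j (p a) hi hj
    obtain ⟨w, rfl⟩ := exists_pr p
    rw [pr_apply] at hz
    have hzw : w a - z ∈ P.lattice := (coe_eq_iff _ _).mp hz.symm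
    refine ⟨Function.update w a z, fun v => L.g i j ((v a : ℂ) : Ell P), ?_, ?_, ?_⟩
    · rw [pr_eq_iff]
      intro b
      by_cases hb : b = a
      · subst hb
        rw [Function.update_self]
        have := neg_mem hzw
        simpa using this
      · rw [Function.update_of_ne hb, sub_self]
        exact zero_mem _
    · have h1 : AnalyticAt ℂ (fun w : ℂ => L.g i j (w : Ell P)) (Function.update w a z a) := by
        rw [Function.update_self]; exact hz'
      exact AnalyticAt.fun_comp (g := fun w : ℂ => L.g i j (w : Ell P)) (f := fun v : Fin n → ℂ => v a)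
        h1 ((ContinuousLinearMap.proj (R := ℂ) (φ := fun _ : Fin n => ℂ) a).analyticAt _)
    · exact Eventually.of_forall fun v _ => rfl
  · intro i j p _ hi hj
    exact L.ne_zero i j _ hi hj
  · intro i j i' j' p _ hi hi' hj hj'
    rw [pow_one]
    have h1 := L.cocycle i i' j (p a) hi hi' hj
    have h2 := L.cocycle i' j' j (p a) hi' hj' hj
    have h3 := L.cocycle j j' j (p a) hj hj' hj
    have h4 : L.g j j (p a) = 1 := by
      have := L.cocycle j j j (p a) hj hj hj
      have h5 := L.ne_zero j j (p a) hj hj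
      exact mul_right_cancel₀ h5 (by rw [this, one_mul])
    rw [h4] at h3
    have h6 := L.ne_zero j j' (p a) hj hj'
    rw [div_mul_eq_mul_div, eq_div_iff h6, ← h1, ← h2]
    linear_combination (L.g i i' (p a) * L.g i' j' (p a)) * h3

lemma IsHolAt.inv {S : Set (Fin n → Ell P)} {h : (Fin n → Ell P) → ℂ} {p : Fin n → Ell P}
    (hh : IsHolAt S h p) (hp : p ∈ S) (hne : h p ≠ 0) : IsHolAt S (fun p => (h p)⁻¹) p := by
  obtain ⟨z, H, h1, h2, h3⟩ := hh
  refine ⟨z, fun w => (H w)⁻¹, h1, ?_, ?_⟩
  · refine h2.inv ?_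
    have h4 := h3.self_of_nhds
    rw [h1] at h4
    rw [← h4 hp]
    exact hne
  · filter_upwards [h3] with w hw hw'
    rw [hw hw']

lemma triv_symm {L : LineBundle P} {S : Set (Fin n → Ell P)} {a b : Fin n} {N : ℕ}
    {s : L.I → L.I → (Fin n → Ell P) → ℂ} (h : IsTrivialization L S a b N s) :
    IsTrivialization L S b a N (fun i j p => (s j i p)⁻¹) := by
  refine ⟨?_, ?_, ?_⟩
  · intro i j p hp hi hj
    exact (h.hol j i p hp hj hi).inv hp (h.ne_zero j i p hp hj hi)
  · intro i j p hp hi hj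
    exact inv_ne_zero (h.ne_zero j i p hp hj hi)
  · intro i j i' j' p hp hi hi' hj hj'
    rw [h.trans j i j' i' p hp hj hj' hi hi', mul_inv, ← inv_pow, inv_div]

end

end Pool.Agent.V1164.QD
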