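import Pool.Agent.V1164.QD.LB
import Pool.Agent.V1164.QD.Liou
import Pool.Agent.H667R3.W6

/-!
# The curve `(℘(x) - a) (℘(y) - a) = k` in `E²`
-/

set_option autoImplicit false

open Filter Topology
open scoped PeriodPair

namespace Pool.Agent.V1164.QD

noncomputable section

variable (P : PeriodPair)

/-- a point of order four -/
def w4 : ℂ := P.ω₁ / 4

lemma two_w4 : 2 * w4 P = P.ω₁ / 2 := by unfold w4; ring

lemma two_w4_notMem : 2 * w4 P ∉ P.lattice := by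
  rw [two_w4]; exact P.ω₁_div_two_notMem_lattice

lemma w4_notMem : w4 P ∉ P.lattice := H667R3.two_mul_notMem_of P (two_w4_notMem P)

/-- the numerator -/
def Af (x : ℂ) : ℂ := -(H667R3.sigma P (x + w4 P) * H667R3.sigma P (x - w4 P))

/-- the denominator -/
def Bf (x : ℂ) : ℂ := H667R3.sigma P x ^ 2 * H667R3.sigma P (w4 P) ^ 2

/-- the function `℘(x) - a` -/
def Tf (x : ℂ) : ℂ := ℘[P] x - ℘[P] (w4 P)

variable {P}

lemma Tf_eq {x : ℂ} (hx : x ∉ P.lattice) : Tf P x = Af P x / Bf P x :=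
  H667R3.wp_sub_wp P hx (w4_notMem P)

lemma Bf_ne {x : ℂ} (hx : x ∉ P.lattice) : Bf P x ≠ 0 :=
  mul_ne_zero (pow_ne_zero _ (H667R3.sigma_ne_zero P hx))
    (pow_ne_zero _ (H667R3.sigma_ne_zero P (w4_notMem P)))

lemma Bf_eq_zero {x : ℂ} (hx : x ∈ P.lattice) : Bf P x = 0 := by
  unfold Bf
  rw [H667R3.sigma_coe_eq_zero P hx]; ring

lemma Af_eq {x : ℂ} (hx : x ∉ P.lattice) : Af P x = Bf P x * Tf P x := by
  rw [Tf_eq hx, mul_div_cancel₀ _ (Bf_ne hx)]

lemma Af_ne_of_mem {x : ℂ} (hx : x ∈ P.lattice) : Af P x ≠ 0 := by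
  unfold Af
  have h1 : x + w4 P ∉ P.lattice := by
    intro h
    apply w4_notMem P
    have := sub_mem h hx
    simpa using this
  have h2 : x - w4 P ∉ P.lattice := by
    intro h
    apply w4_notMem P
    have := sub_mem hx h
    simpa using this
  exact neg_ne_zero.mpr (mul_ne_zero (H667R3.sigma_ne_zero P h1) (H667R3.sigma_ne_zero P h2))

lemma Tf_zero_iff {x : ℂ} (hx : x ∉ P.lattice) :
    Tf P x = 0 ↔ (x + w4 P ∈ P.lattice ∨ x - w4 P ∈ P.lattice) := by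
  rw [← H667R3.wp_eq_iff P hx (w4_notMem P)]
  exact sub_eq_zero

lemma two_notMem_of_Tf {x : ℂ} (hx : x ∉ P.lattice) (h : Tf P x = 0) : 2 * x ∉ P.lattice := by
  intro h2
  rcases (Tf_zero_iff hx).mp h with h1 | h1
  · apply two_w4_notMem P
    have := sub_mem (add_mem h1 h1) h2
    have e : x + w4 P + (x + w4 P) - 2 * x = 2 * w4 P := by ring
    rwa [e] at this
  · apply two_w4_notMem P
    have := sub_mem h2 (add_mem h1 h1)
    have e : 2 * x - (x - w4 P + (x - w4 P)) = 2 * w4 P := by ring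
    rwa [e] at this

lemma differentiable_Af : Differentiable ℂ (Af P) := by
  have h := H667R3.differentiable_sigma P
  exact ((h.comp (differentiable_id.add_const _)).mul (h.comp (differentiable_id.sub_const _))).neg

lemma differentiable_Bf : Differentiable ℂ (Bf P) := by
  have h := H667R3.differentiable_sigma P
  exact (h.pow 2).mul_const _

/-- the equation -/
def Gf (P : PeriodPair) (k x y : ℂ) : ℂ := Af P x * Af P y - k * Bf P x * Bf P y

lemma Gf_symm (k x y : ℂ) : Gf P k x y = Gf P k y x := by unfold Gf; ring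

lemma Gf_zero_iff (k x y : ℂ) : Gf P k x y = 0 ↔
    ((x ∉ P.lattice ∧ y ∉ P.lattice ∧ Tf P x * Tf P y = k) ∨
      (x ∈ P.lattice ∧ y ∉ P.lattice ∧ Tf P y = 0) ∨
      (x ∉ P.lattice ∧ y ∈ P.lattice ∧ Tf P x = 0)) := by
  unfold Gf
  by_cases hx : x ∈ P.lattice
  · by_cases hy : y ∈ P.lattice
    · have h1 := Af_ne_of_mem hx
      have h2 := Af_ne_of_mem hy
      rw [Bf_eq_zero hx, Bf_eq_zero hy]
      simp [hx, hy, h1, h2]
    · have h1 := Af_ne_of_mem hx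
      have h2 := Bf_ne hy
      rw [Bf_eq_zero hx, Af_eq hy]
      simp [hx, hy, h1, h2]
  · by_cases hy : y ∈ P.lattice
    · have h1 := Af_ne_of_mem hy
      have h2 := Bf_ne hx
      rw [Bf_eq_zero hy, Af_eq hx]
      simp [hx, hy, h1, h2]
    · have h1 := Bf_ne hx
      have h2 := Bf_ne hy
      rw [Af_eq hy, Af_eq hx]
      have e : Bf P x * Tf P x * (Bf P y * Tf P y) - k * Bf P x * Bf P y
        = (Bf P x * Bf P y) * (Tf P x * Tf P y - k) := by ring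
      rw [e]
      simp [hx, hy, h1, h2, sub_eq_zero]

lemma Tf_add {x l : ℂ} (hl : l ∈ P.lattice) : Tf P (x + l) = Tf P x := by
  unfold Tf
  rw [P.weierstrassP_add_coe x ⟨l, hl⟩]

lemma Gf_zero_congr {k x y x' y' : ℂ} (hx : x - x' ∈ P.lattice) (hy : y - y' ∈ P.lattice) :
    Gf P k x y = 0 ↔ Gf P k x' y' = 0 := by
  rw [Gf_zero_iff, Gf_zero_iff]
  have e1 : x = x' + (x - x') := by ring
  have e2 : y = y' + (y - y') := by ring
  have h1 : x ∈ P.lattice ↔ x' ∈ P.lattice := by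
    conv_lhs => rw [e1]
    exact H667R3.add_mem_iff P hx
  have h2 : y ∈ P.lattice ↔ y' ∈ P.lattice := by
    conv_lhs => rw [e2]
    exact H667R3.add_mem_iff P hy
  have h3 : Tf P x = Tf P x' := by
    conv_lhs => rw [e1]
    exact Tf_add hx
  have h4 : Tf P y = Tf P y' := by
    conv_lhs => rw [e2]
    exact Tf_add hy
  rw [h1, h2, h3, h4]

/-- the curve -/
def SPhi (P : PeriodPair) (k : ℂ) : Set (Fin 2 → Ell P) :=
  {p | ∃ z : Fin 2 → ℂ, pr P z = p ∧ Gf P k (z 0) (z 1) = 0}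

lemma mem_SPhi {k : ℂ} (z : Fin 2 → ℂ) : pr P z ∈ SPhi P k ↔ Gf P k (z 0) (z 1) = 0 := by
  constructor
  · rintro ⟨w, hw, h⟩
    have := (pr_eq_iff _ _).mp hw
    exact (Gf_zero_congr (this 0) (this 1)).mp h
  · intro h
    exact ⟨z, rfl, h⟩

lemma analytic_Gf (k : ℂ) (u : ℂ × ℂ) : AnalyticAt ℂ (fun v : ℂ × ℂ => Gf P k v.1 v.2) u := by
  have hA : ∀ x, AnalyticAt ℂ (Af P) x := fun x => (differentiable_Af (P := P)).analyticAt x
  have hB : ∀ x, AnalyticAt ℂ (Bf P) x := fun x => (differentiable_Bf (P := P)).analyticAt x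
  have h1 : AnalyticAt ℂ (fun v : ℂ × ℂ => Af P v.1) u :=
    AnalyticAt.fun_comp (g := Af P) (f := fun v : ℂ × ℂ => v.1) (hA _) analyticAt_fst
  have h2 : AnalyticAt ℂ (fun v : ℂ × ℂ => Af P v.2) u :=
    AnalyticAt.fun_comp (g := Af P) (f := fun v : ℂ × ℂ => v.2) (hA _) analyticAt_snd
  have h3 : AnalyticAt ℂ (fun v : ℂ × ℂ => Bf P v.1) u :=
    AnalyticAt.fun_comp (g := Bf P) (f := fun v : ℂ × ℂ => v.1) (hB _) analyticAt_fst
  have h4 : AnalyticAt ℂ (fun v : ℂ × ℂ => Bf P v.2) u :=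
    AnalyticAt.fun_comp (g := Bf P) (f := fun v : ℂ × ℂ => v.2) (hB _) analyticAt_snd
  exact (h1.mul h2).fun_sub ((analyticAt_const.mul h3).mul h4)

lemma analyticAt_pair {n : ℕ} (i j : Fin n) (z : Fin n → ℂ) :
    AnalyticAt ℂ (fun w : Fin n → ℂ => (w i, w j)) z := by
  have h1 : AnalyticAt ℂ (fun w : Fin n → ℂ => w i) z :=
    (ContinuousLinearMap.proj (R := ℂ) (φ := fun _ : Fin n => ℂ) i).analyticAt _
  have h2 : AnalyticAt ℂ (fun w : Fin n → ℂ => w j) z :=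
    (ContinuousLinearMap.proj (R := ℂ) (φ := fun _ : Fin n => ℂ) j).analyticAt _
  exact h1.prod h2

lemma isAnalytic_SPhi (k : ℂ) : IsAnalyticSubset (SPhi P k) := by
  intro z
  refine ⟨1, fun w _ => Gf P k (w 0) (w 1), ?_, Eventually.of_forall fun w => ?_⟩
  · rw [analyticAt_pi_iff]
    intro _
    exact AnalyticAt.fun_comp (g := fun v : ℂ × ℂ => Gf P k v.1 v.2)
      (f := fun w : Fin 2 → ℂ => (w 0, w 1)) (analytic_Gf k _) (analyticAt_pair 0 1 z)
  · rw [mem_SPhi]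
    constructor
    · intro h; funext _; exact h
    · intro h; exact congrFun h 0

/-- the derivative of the equation -/
lemma hasDerivAt_Gf {k x y : ℂ} (hy : y ∉ P.lattice) (h0 : Gf P k x y = 0) :
    HasDerivAt (fun y => Gf P k x y) (Bf P y * (Af P x * ℘'[P] y)) y := by
  have h1 : (fun y => Gf P k x y) =ᶠ[𝓝 y] fun y => Bf P y * (Af P x * Tf P y - k * Bf P x) := by
    filter_upwards [eventually_notMem_lattice hy] with t ht
    unfold Gf
    rw [Af_eq ht]; ring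
  have h2 : Af P x * Tf P y - k * Bf P x = 0 := by
    have : Gf P k x y = Bf P y * (Af P x * Tf P y - k * Bf P x) := h1.self_of_nhds
    rw [h0] at this
    exact (mul_eq_zero.mp this.symm).resolve_left (Bf_ne hy)
  have h3 : HasDerivAt (Tf P) (℘'[P] y) y :=
    (H667R3.hasDerivAt_weierstrassP P hy).sub_const _
  have h4 : HasDerivAt (Bf P) (deriv (Bf P) y) y := (differentiable_Bf y).hasDerivAt
  have h5 := h4.fun_mul ((h3.const_mul (Af P x)).sub_const (k * Bf P x))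
  refine (h5.congr_deriv ?_).congr_of_eventuallyEq h1
  rw [h2]; ring

lemma Af_ne_of_zero {k x y : ℂ} (hy : y ∉ P.lattice) (h0 : Gf P k x y = 0)
    (hk : k ≠ 0) : Af P x ≠ 0 := by
  intro h
  unfold Gf at h0
  rw [h, zero_mul, zero_sub, neg_eq_zero] at h0
  have h1 : Bf P x ≠ 0 := by
    intro h2
    by_cases hx : x ∈ P.lattice
    · exact Af_ne_of_mem hx h
    · exact Bf_ne hx h2
  exact mul_ne_zero (mul_ne_zero hk h1) (Bf_ne hy) h0

lemma analyticAt_graph {n : ℕ} {g : ℂ → (Fin n → ℂ)} {t : ℂ} (h : ∀ i, AnalyticAt ℂ (fun s => g s i) t) :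
    AnalyticAt ℂ g t := analyticAt_pi_iff.mpr h

lemma smooth_graph0 {k : ℂ} (hk : k ≠ 0) (z : Fin 2 → ℂ) (h0 : Gf P k (z 0) (z 1) = 0)
    (h1 : z 1 ∉ P.lattice) (h2 : ℘'[P] (z 1) ≠ 0) : IsSmoothCurveAt (SPhi P k) (pr P z) := by
  obtain ⟨ψ, hψ, hψ0, hψ'⟩ := ift (F := fun v : ℂ × ℂ => Gf P k v.1 v.2) (u := (z 0, z 1))
    (analytic_Gf k _) h0 (hasDerivAt_Gf h1 h0)
    (mul_ne_zero (Bf_ne h1) (mul_ne_zero (Af_ne_of_zero h1 h0 hk) h2))
  refine ⟨z, 0, fun t => ![t, ψ t], rfl, ?_, fun t => rfl, ?_⟩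
  · apply analyticAt_graph
    intro i
    fin_cases i
    · exact analyticAt_id
    · exact hψ
  · have hc : Tendsto (fun w : Fin 2 → ℂ => (w 0, w 1)) (𝓝 z) (𝓝 (z 0, z 1)) :=
      (analyticAt_pair 0 1 z).continuousAt
    filter_upwards [hc hψ'] with w hw
    rw [mem_SPhi]
    have hw' : Gf P k (w 0) (w 1) = 0 ↔ w 1 = ψ (w 0) := hw
    rw [hw']
    constructor
    · intro h
      funext i
      fin_cases i
      · rfl
      · exact h
    · intro h
      exact congrFun h 1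

lemma smooth_graph1 {k : ℂ} (hk : k ≠ 0) (z : Fin 2 → ℂ) (h0 : Gf P k (z 0) (z 1) = 0)
    (h1 : z 0 ∉ P.lattice) (h2 : ℘'[P] (z 0) ≠ 0) : IsSmoothCurveAt (SPhi P k) (pr P z) := by
  have h0' : Gf P k (z 1) (z 0) = 0 := by rw [Gf_symm]; exact h0
  obtain ⟨ψ, hψ, hψ0, hψ'⟩ := ift (F := fun v : ℂ × ℂ => Gf P k v.1 v.2) (u := (z 1, z 0))
    (analytic_Gf k _) h0' (hasDerivAt_Gf h1 h0')
    (mul_ne_zero (Bf_ne h1) (mul_ne_zero (Af_ne_of_zero h1 h0' hk) h2))
  refine ⟨z, 1, fun t => ![ψ t, t], rfl, ?_, fun t => rfl, ?_⟩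
  · apply analyticAt_graph
    intro i
    fin_cases i
    · exact hψ
    · exact analyticAt_id
  · have hc : Tendsto (fun w : Fin 2 → ℂ => (w 1, w 0)) (𝓝 z) (𝓝 (z 1, z 0)) :=
      (analyticAt_pair 1 0 z).continuousAt
    filter_upwards [hc hψ'] with w hw
    rw [mem_SPhi, Gf_symm]
    have hw' : Gf P k (w 1) (w 0) = 0 ↔ w 0 = ψ (w 1) := hw
    rw [hw']
    constructor
    · intro h
      funext i
      fin_cases i
      · exact h
      · rfl
    · intro h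
      exact congrFun h 0

/-- the genericity condition on `k` -/
def GoodK (P : PeriodPair) (k : ℂ) : Prop :=
  k ≠ 0 ∧ ∀ x y : ℂ, x ∉ P.lattice → y ∉ P.lattice → ℘'[P] x = 0 → ℘'[P] y = 0 →
    Tf P x * Tf P y ≠ k

lemma exists_goodK (P : PeriodPair) : ∃ k, GoodK P k := by
  -- the values of `℘` at the zeros of `℘'` form a finite set
  have hfin : {e : ℂ | ∃ x : ℂ, x ∉ P.lattice ∧ ℘'[P] x = 0 ∧ ℘[P] x = e}.Finite := by
    have hpoly : (Polynomial.C 4 * Polynomial.X ^ 3 - Polynomial.C P.g₂ * Polynomial.X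
        - Polynomial.C P.g₃ : Polynomial ℂ) ≠ 0 := by
      intro h
      have := congrArg (fun p => Polynomial.coeff p 3) h
      simp at this
    refine (Polynomial.finite_setOfPred_isRoot hpoly).subset ?_
    rintro e ⟨x, hx, hx', rfl⟩
    have := P.derivWeierstrassP_sq x hx
    rw [hx'] at this
    simp only [Set.mem_ofPred_eq, Polynomial.IsRoot, Polynomial.eval_sub, Polynomial.eval_mul,
      Polynomial.eval_C, Polynomial.eval_pow, Polynomial.eval_X]
    linear_combination -this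
  set V := {e : ℂ | ∃ x : ℂ, x ∉ P.lattice ∧ ℘'[P] x = 0 ∧ ℘[P] x = e} with hV
  have hfin2 : (insert (0 : ℂ) ((fun q : ℂ × ℂ => (q.1 - ℘[P] (w4 P)) * (q.2 - ℘[P] (w4 P))) ''
      (V ×ˢ V))).Finite := ((hfin.prod hfin).image _).insert 0
  obtain ⟨k, hk⟩ := hfin2.exists_notMem
  refine ⟨k, fun h => hk (Or.inl h), fun x y hx hy hx' hy' h => hk (Or.inr ?_)⟩
  exact ⟨(℘[P] x, ℘[P] y), ⟨⟨x, hx, hx', rfl⟩, ⟨y, hy, hy', rfl⟩⟩, h⟩

lemma smooth_SPhi {k : ℂ} (hk : GoodK P k) : ∀ p ∈ SPhi P k, IsSmoothCurveAt (SPhi P k) p := by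
  rintro p ⟨z, rfl, h⟩
  rcases (Gf_zero_iff _ _ _).mp h with ⟨h0, h1, h2⟩ | ⟨h0, h1, h2⟩ | ⟨h0, h1, h2⟩
  · by_cases hy : ℘'[P] (z 1) = 0
    · have hx : ℘'[P] (z 0) ≠ 0 := fun hx => hk.2 _ _ h0 h1 hx hy h2
      exact smooth_graph1 hk.1 z h h0 hx
    · exact smooth_graph0 hk.1 z h h1 hy
  · exact smooth_graph0 hk.1 z h h1 (H667R3.wp'_ne_zero P (two_notMem_of_Tf h1 h2))
  · exact smooth_graph1 hk.1 z h h0 (H667R3.wp'_ne_zero P (two_notMem_of_Tf h0 h2))

lemma exists_x {k : ℂ} (y : ℂ) : ∃ x : ℂ, Gf P k x y = 0 := by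
  by_cases hy : y ∈ P.lattice
  · refine ⟨w4 P, ?_⟩
    rw [Gf_zero_iff]
    exact Or.inr (Or.inr ⟨w4_notMem P, hy, by simp [Tf]⟩)
  · by_cases hT : Tf P y = 0
    · refine ⟨0, ?_⟩
      rw [Gf_zero_iff]
      exact Or.inr (Or.inl ⟨zero_mem _, hy, hT⟩)
    · obtain ⟨x, hx, hx'⟩ := H667R3.exists_wp_eq P (k / Tf P y + ℘[P] (w4 P))
      refine ⟨x, ?_⟩
      rw [Gf_zero_iff]
      refine Or.inl ⟨hx, hy, ?_⟩
      have : Tf P x = k / Tf P y := by unfold Tf at *; rw [hx']; ring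
      rw [this, div_mul_cancel₀ _ hT]

lemma unique_x {k : ℂ} (hk : k ≠ 0) {x x' y : ℂ} (h : Gf P k x y = 0) (h' : Gf P k x' y = 0) :
    x' - x ∈ P.lattice ∨ x' + x ∈ P.lattice := by
  have key : x ∉ P.lattice → x' ∉ P.lattice → Tf P x = Tf P x' →
      (x' - x ∈ P.lattice ∨ x' + x ∈ P.lattice) := by
    intro h1 h2 h3
    have h4 : ℘[P] x' = ℘[P] x := by
      unfold Tf at h3
      linear_combination -h3
    have := (H667R3.wp_eq_iff P h2 h1).mp h4
    tauto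
  rcases (Gf_zero_iff _ _ _).mp h with ⟨h0, h1, h2⟩ | ⟨h0, h1, h2⟩ | ⟨h0, h1, h2⟩
  · rcases (Gf_zero_iff _ _ _).mp h' with ⟨g0, g1, g2⟩ | ⟨g0, g1, g2⟩ | ⟨g0, g1, g2⟩
    · refine key h0 g0 ?_
      have hy : Tf P y ≠ 0 := by rintro hy; rw [hy, mul_zero] at h2; exact hk h2.symm
      exact mul_right_cancel₀ hy (by rw [h2, g2])
    · rw [g2, mul_zero] at h2; exact absurd h2.symm hk
    · exact absurd g1 h1
  · rcases (Gf_zero_iff _ _ _).mp h' with ⟨g0, g1, g2⟩ | ⟨g0, g1, g2⟩ | ⟨g0, g1, g2⟩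
    · rw [h2, mul_zero] at g2; exact absurd g2.symm hk
    · exact Or.inl (sub_mem g0 h0)
    · exact absurd g1 h1
  · rcases (Gf_zero_iff _ _ _).mp h' with ⟨g0, g1, g2⟩ | ⟨g0, g1, g2⟩ | ⟨g0, g1, g2⟩
    · exact absurd h1 g1
    · exact absurd h1 g1
    · exact key h0 g0 (by rw [h2, g2])

lemma Tf_neg (x : ℂ) : Tf P (-x) = Tf P x := by unfold Tf; rw [P.weierstrassP_neg]

lemma Gf_neg {k x y : ℂ} (h : Gf P k x y = 0) : Gf P k (-x) y = 0 := by
  rw [Gf_zero_iff] at h ⊢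
  rw [neg_mem_iff, Tf_neg]
  exact h

lemma connected_SPhi {k : ℂ} (hk : GoodK P k) : IsConnected (SPhi P k) := by
  set π : (Fin 2 → Ell P) → Ell P := fun p => p 1 with hπ
  set τ : (Fin 2 → Ell P) → (Fin 2 → Ell P) := fun p => ![-(p 0), p 1] with hτ
  have hτpr : ∀ z : Fin 2 → ℂ, τ (pr P z) = pr P ![-(z 0), z 1] := by
    intro z
    funext i
    fin_cases i <;> rfl
  obtain ⟨x₀, hx₀⟩ := exists_x (P := P) (k := k) (P.ω₁ / 2)
  have hs₀ : Gf P k (P.ω₁ / 2) x₀ = 0 := by rw [Gf_symm]; exact hx₀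
  have hpre := preconnected_of_double (A := SPhi P k) (isAnalytic_SPhi k).isClosed
    (U := (Set.univ : Set (Ell P))) isPreconnected_univ_Ell (π := π) (by fun_prop) (τ := τ) ?_ ?_ ?_
    ?_ ?_ (s₀ := pr P ![P.ω₁ / 2, x₀]) ?_ (Set.mem_univ _) ?_
  · rw [Set.preimage_univ, Set.inter_univ] at hpre
    exact ⟨⟨pr P ![P.ω₁ / 2, x₀], (mem_SPhi _).mpr hs₀⟩, hpre⟩
  · refine continuous_pi fun i => ?_
    fin_cases i
    · exact (continuous_apply (0 : Fin 2)).neg
    · exact continuous_apply (1 : Fin 2)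
  · rintro s ⟨z, rfl, hz⟩ -
    rw [hτpr, mem_SPhi]
    exact Gf_neg hz
  · intro s _ _
    rfl
  · intro u _
    obtain ⟨y, rfl⟩ := exists_coe u
    obtain ⟨x, hx⟩ := exists_x (P := P) (k := k) y
    exact ⟨pr P ![x, y], (mem_SPhi _).mpr hx, rfl⟩
  · rintro s ⟨z, rfl, hz⟩ s' ⟨z', rfl, hz'⟩ - h
    have h' : z 1 - z' 1 ∈ P.lattice := (coe_eq_iff _ _).mp h
    have hz'' : Gf P k (z' 0) (z 1) = 0 := by
      refine (Gf_zero_congr (x' := z' 0) (y' := z' 1) ?_ h').mpr hz'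
      rw [sub_self]; exact zero_mem _
    rcases unique_x hk.1 hz hz'' with h1 | h1
    · left
      rw [pr_eq_iff]
      intro i
      fin_cases i
      · exact h1
      · have := neg_mem h'
        simpa using this
    · right
      rw [hτpr, pr_eq_iff]
      intro i
      fin_cases i
      · simpa using h1
      · have := neg_mem h'
        simpa using this
  · rw [mem_SPhi]
    exact hs₀
  · rw [hτpr, pr_eq_iff]
    intro i
    fin_cases i
    · have e : -(P.ω₁ / 2) - P.ω₁ / 2 = -P.ω₁ := by ring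
      have := neg_mem P.ω₁_mem_lattice
      simpa [e] using this
    · simp

lemma curve_SPhi {k : ℂ} (hk : GoodK P k) : IsIrreducibleCurve (SPhi P k) := by
  refine ⟨isAnalytic_SPhi k, ∅, Set.finite_empty, ?_, ?_, ?_⟩
  · intro p hp
    exact smooth_SPhi hk p hp.1
  · rw [Set.sdiff_empty]
    exact connected_SPhi hk
  · rw [Set.sdiff_empty]
    exact subset_closure

lemma not_closed_SPhi {k : ℂ} (hk : GoodK P k) :
    ¬ ∀ p ∈ SPhi P k, ∀ q ∈ SPhi P k, ∀ r ∈ SPhi P k, p + q - r ∈ SPhi P k := by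
  intro hcl
  obtain ⟨x₀, hx₀⟩ := exists_x (P := P) (k := k) (P.ω₁ / 2)
  have hs₀ : Gf P k (P.ω₁ / 2) x₀ = 0 := by rw [Gf_symm]; exact hx₀
  have h1 : Gf P k (w4 P) 0 = 0 := by
    rw [Gf_zero_iff]
    exact Or.inr (Or.inr ⟨w4_notMem P, zero_mem _, by simp [Tf]⟩)
  have h2 := Gf_neg h1
  have h3 := hcl (pr P ![P.ω₁ / 2, x₀]) ((mem_SPhi _).mpr hs₀) (pr P ![w4 P, 0])
    ((mem_SPhi _).mpr h1) (pr P ![-w4 P, 0]) ((mem_SPhi _).mpr h2)
  have e : pr P ![P.ω₁ / 2, x₀] + pr P ![w4 P, 0] - pr P ![-w4 P, 0] =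
      pr P ![P.ω₁ / 2 + w4 P - -w4 P, x₀ + 0 - 0] := by
    funext i
    fin_cases i <;> rfl
  rw [e, mem_SPhi] at h3
  have h4 : Gf P k (P.ω₁ / 2 + w4 P - -w4 P) x₀ = 0 := by simpa using h3
  have e1 : P.ω₁ / 2 + w4 P - -w4 P = P.ω₁ / 2 + 2 * w4 P := by ring
  rw [e1] at h4
  rcases unique_x hk.1 hs₀ h4 with h5 | h5
  · apply two_w4_notMem P
    have e2 : P.ω₁ / 2 + 2 * w4 P - P.ω₁ / 2 = 2 * w4 P := by ring
    rwa [e2] at h5
  · apply two_w4_notMem P
    have h6 := sub_mem h5 P.ω₁_mem_lattice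
    have e2 : P.ω₁ / 2 + 2 * w4 P + P.ω₁ / 2 - P.ω₁ = 2 * w4 P := by ring
    rwa [e2] at h6

lemma not_elliptic_SPhi {k : ℂ} (hk : GoodK P k) : ¬ IsElliptic (SPhi P k) :=
  fun h => not_closed_SPhi hk (elliptic_closed h)

/-! ### the line bundle -/

/-- the function `℘ - a` with its double pole -/
def TPole (P : PeriodPair) : PoleFun P where
  f := Tf P
  per := fun z l hl => Tf_add hl
  an := by
    intro z hz
    have h : AnalyticAt ℂ (℘[P]) z := P.analyticOnNhd_weierstrassP z hz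
    exact h.fun_sub analyticAt_const
  d := 2
  hd := two_ne_zero
  q := fun z => 1 + z ^ 2 * (℘[P - (0 : ℂ)] z - ℘[P] (w4 P))
  hq := by
    have h : AnalyticAt ℂ (℘[P - (0 : ℂ)]) 0 := P.analyticAt_weierstrassPExcept 0
    exact analyticAt_const.fun_add ((analyticAt_id.pow 2).fun_mul (h.fun_sub analyticAt_const))
  hq0 := by simp
  near := by
    refine Eventually.of_forall fun z hz => ?_
    have e2 : ℘[P] z = ℘[P - (0 : ℂ)] z + 1 / z ^ 2 := by
      have := P.weierstrassPExcept_add (0 : P.lattice) z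
      simp at this
      rw [← this]; simp
    unfold Tf
    rw [e2]
    field_simp
    ring

lemma holAt_of {n : ℕ} {S : Set (Fin n → Ell P)} {h : (Fin n → Ell P) → ℂ} (z : Fin n → ℂ)
    (H : (Fin n → ℂ) → ℂ) (hH : AnalyticAt ℂ H z)
    (hev : ∀ᶠ w in 𝓝 z, pr P w ∈ S → h (pr P w) = H w) : IsHolAt S h (pr P z) :=
  ⟨z, H, rfl, hH, hev⟩

lemma analyticAt_coord {n : ℕ} {f : ℂ → ℂ} (i : Fin n) (z : Fin n → ℂ) (hf : AnalyticAt ℂ f (z i)) :
    AnalyticAt ℂ (fun w : Fin n → ℂ => f (w i)) z :=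
  AnalyticAt.fun_comp (g := f) (f := fun w : Fin n → ℂ => w i) hf
    ((ContinuousLinearMap.proj (R := ℂ) (φ := fun _ : Fin n => ℂ) i).analyticAt _)

/-- the section trivializing `p₀^* L ⊗ p₁^* L⁻¹` -/
def sPhi (P : PeriodPair) (k : ℂ) : Bool → Bool → (Fin 2 → Ell P) → ℂ
  | false, false => fun p => (TPole P).E (p 0)
  | false, true => fun _ => k
  | true, false => fun _ => 1
  | true, true => fun p => (TPole P).E (p 1)

lemma SPhi_rel {k : ℂ} {p : Fin 2 → Ell P} (hp : p ∈ SPhi P k) (h0 : p 0 ≠ 0) (h1 : p 1 ≠ 0) :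
    (TPole P).E (p 0) * (TPole P).E (p 1) = k := by
  obtain ⟨z, rfl, hz⟩ := hp
  rw [pr_apply, ne_eq, coe_eq_zero_iff] at h0 h1
  rw [pr_apply, pr_apply, PoleFun.E_coe, PoleFun.E_coe]
  rcases (Gf_zero_iff _ _ _).mp hz with h | h | h
  · exact h.2.2
  · exact absurd h.1 h0
  · exact absurd h.2.1 h1

lemma SPhi_rel0 {k : ℂ} {p : Fin 2 → Ell P} (hp : p ∈ SPhi P k) (h0 : p 0 = 0) :
    p 1 ≠ 0 ∧ (TPole P).E (p 1) = 0 := by
  obtain ⟨z, rfl, hz⟩ := hp
  rw [pr_apply, coe_eq_zero_iff] at h0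
  rw [pr_apply, PoleFun.E_coe, ne_eq, coe_eq_zero_iff]
  rcases (Gf_zero_iff _ _ _).mp hz with h | h | h
  · exact absurd h0 h.1
  · exact ⟨h.2.1, h.2.2⟩
  · exact absurd h0 h.1

lemma SPhi_rel1 {k : ℂ} {p : Fin 2 → Ell P} (hp : p ∈ SPhi P k) (h1 : p 1 = 0) :
    p 0 ≠ 0 ∧ (TPole P).E (p 0) = 0 := by
  obtain ⟨z, rfl, hz⟩ := hp
  rw [pr_apply, coe_eq_zero_iff] at h1
  rw [pr_apply, PoleFun.E_coe, ne_eq, coe_eq_zero_iff]
  rcases (Gf_zero_iff _ _ _).mp hz with h | h | h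
  · exact absurd h1 h.2.1
  · exact absurd h1 h.2.1
  · exact ⟨h.1, h.2.2⟩

lemma triv_SPhi {k : ℂ} (hk : k ≠ 0) :
    IsTrivialization (TPole P).bundle (SPhi P k) 0 1 1 (sPhi P k) := by
  have hU0 : ∀ x : Ell P, x ∈ (TPole P).U false ↔ x ≠ 0 := fun x => Iff.rfl
  have hU1 : ∀ x : Ell P, x ∈ (TPole P).U true ↔ (x = 0 ∨ (TPole P).E x ≠ 0) := fun x => Iff.rfl
  -- on the curve: `x ≠ 0` in the second chart implies that `y ≠ 0`
  have key : ∀ p ∈ SPhi P k, p 0 ∈ (TPole P).U true → p 1 ≠ 0 := by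
    intro p hp h h1
    obtain ⟨h2, h3⟩ := SPhi_rel1 hp h1
    rcases (hU1 _).mp h with h4 | h4
    · exact h2 h4
    · exact h4 h3
  have key' : ∀ p ∈ SPhi P k, p 1 ∈ (TPole P).U true → p 0 ≠ 0 := by
    intro p hp h h1
    obtain ⟨h2, h3⟩ := SPhi_rel0 hp h1
    rcases (hU1 _).mp h with h4 | h4
    · exact h2 h4
    · exact h4 h3
  have hne : ∀ p ∈ SPhi P k, p 0 ≠ 0 → p 1 ≠ 0 →
      (TPole P).E (p 0) ≠ 0 ∧ (TPole P).E (p 1) ≠ 0 := by
    intro p hp h0 h1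
    have h2 := SPhi_rel hp h0 h1
    constructor
    · intro h3; rw [h3, zero_mul] at h2; exact hk h2.symm
    · intro h3; rw [h3, mul_zero] at h2; exact hk h2.symm
  have hhol : ∀ (i : Fin 2) (p : Fin 2 → Ell P), p i ≠ 0 →
      IsHolAt (SPhi P k) (fun p => (TPole P).E (p i)) p := by
    intro i p hi
    obtain ⟨z, rfl⟩ := exists_pr p
    rw [pr_apply, ne_eq, coe_eq_zero_iff] at hi
    refine holAt_of z (fun w => Tf P (w i)) (analyticAt_coord i z ((TPole P).an _ hi)) ?_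
    exact Eventually.of_forall fun w _ => (TPole P).E_coe (w i)
  have hconst : ∀ (c : ℂ) (p : Fin 2 → Ell P), IsHolAt (SPhi P k) (fun _ => c) p := by
    intro c p
    obtain ⟨z, rfl⟩ := exists_pr p
    exact holAt_of z (fun _ => c) analyticAt_const (Eventually.of_forall fun w _ => rfl)
  refine ⟨?_, ?_, ?_⟩
  · intro i j p hp hi hj
    cases i <;> cases j
    · exact hhol 0 p hi
    · exact hconst k p
    · exact hconst 1 p
    · exact hhol 1 p (key p hp hi)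
  · intro i j p hp hi hj
    cases i <;> cases j
    · exact (hne p hp hi hj).1
    · exact hk
    · exact one_ne_zero
    · exact (hne p hp (key' p hp hj) (key p hp hi)).2
  · intro i j i' j' p hp hi hi' hj hj'
    rw [pow_one]
    have hr := fun h0 h1 => SPhi_rel hp h0 h1
    have hn := hne p hp
    have k1 := key p hp
    have k2 := key' p hp
    have hU0' : ∀ x : Ell P, x ∈ (TPole P).bundle.U false ↔ x ≠ 0 := fun x => Iff.rfl
    have g1 : (TPole P).bundle.g false false = fun _ => 1 := rfl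
    have g2 : (TPole P).bundle.g true true = fun _ => 1 := rfl
    have g3 : (TPole P).bundle.g false true = (TPole P).E := rfl
    have g4 : (TPole P).bundle.g true false = fun x => ((TPole P).E x)⁻¹ := rfl
    change p 0 ∈ (TPole P).U i at hi
    change p 0 ∈ (TPole P).U i' at hi'
    change p 1 ∈ (TPole P).U j at hj
    change p 1 ∈ (TPole P).U j' at hj'
    set X := (TPole P).E (p 0) with hX
    set Y := (TPole P).E (p 1) with hY
    cases i <;> cases j <;> cases i' <;> cases j' <;>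
      simp only [g1, g2, g3, g4, sPhi, ← hX, ← hY] <;>
      first
        | (have h0 : p 0 ≠ 0 := by first | exact hi | exact hi' | exact k2 hj | exact k2 hj'
           have h1 : p 1 ≠ 0 := by first | exact hj | exact hj' | exact k1 hi | exact k1 hi'
           have hx := (hn h0 h1).1
           have hy := (hn h0 h1).2
           have hr' := hr h0 h1
           field_simp
           first | done | linear_combination hr' | linear_combination -hr' | linear_combination (0 : ℂ) * hr')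
        | simp

lemma isQuasiDiagonal_SPhi {k : ℂ} (hk : GoodK P k) :
    IsQuasiDiagonal (TPole P).bundle (SPhi P k) := by
  refine ⟨curve_SPhi hk, ?_⟩
  intro a b
  fin_cases a <;> fin_cases b
  · exact ⟨1, le_rfl, _, triv_self _ _ _⟩
  · exact ⟨1, le_rfl, _, triv_SPhi hk.1⟩
  · exact ⟨1, le_rfl, _, triv_symm (triv_SPhi hk.1)⟩
  · exact ⟨1, le_rfl, _, triv_self _ _ _⟩

end

end Pool.Agent.V1164.QD
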