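import Pool.Agent.V1164.QD.Phi
import Pool.Agent.V1164.QD.Emb

/-!
# The curve of the points `(x, y, -x, -y)` with `(℘(x) - a) (℘(y) - a) = k` in `E⁴`
-/

set_option autoImplicit false

namespace Pool.Agent.V1164.QD

noncomputable section

variable {P : PeriodPair}

/-- the combinatorial data of `(x, y) ↦ (x, y, -x, -y)` -/
def emb4 : Emb 2 4 where
  κ := ![0, 1, 0, 1]
  ε := ![1, 1, -1, -1]
  ρ := ![0, 1]
  hκ := by intro i; fin_cases i <;> rfl
  hε := by intro i; fin_cases i <;> rfl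
  hε2 := by intro i; fin_cases i <;> simp

lemma smooth_S4 {k : ℂ} (hk : GoodK P k) :
    ∀ p ∈ emb4.image (SPhi P k), IsSmoothCurveAt (emb4.image (SPhi P k)) p := by
  rintro p ⟨s, hs, rfl⟩
  exact emb4.isSmooth_image (smooth_SPhi hk s hs)

lemma restricted_S4 {k : ℂ} : IsRestricted (emb4.image (SPhi P k)) := by
  refine ⟨0, ?_⟩
  rintro p ⟨s, -, rfl⟩
  rw [Fin.sum_univ_four]
  simp [Emb.φ, emb4]

lemma quasi_S4 {k : ℂ} (hk : GoodK P k) :
    IsQuasiDiagonal (TPole P).bundle (emb4.image (SPhi P k)) := by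
  refine ⟨emb4.isCurve_image (curve_SPhi hk), ?_⟩
  intro a b
  obtain ⟨N, hN, s, hs⟩ := (isQuasiDiagonal_SPhi hk).torsion (emb4.κ a) (emb4.κ b)
  refine ⟨2 * N, by omega, _, emb4.triv_image (TPole P) ?_ a b hs⟩
  intro z
  exact congrArg (· ^ 2) (Tf_neg z)

end

end Pool.Agent.V1164.QD
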