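import Pool.Agent.V1164.QD.Phi
import Pool.Agent.V1164.QD.Emb

/-!
# The curve `ζ(x) + ζ(y) + ζ(z) = c` on `x + y + z = 0` in `E³`
-/

set_option autoImplicit false

open Filter Topology
open scoped PeriodPair

namespace Pool.Agent.V1164.QD

noncomputable section

variable {P : PeriodPair}

/-- the function `ζ(x) + ζ(y) - ζ(x + y)` -/
def Ph (P : PeriodPair) (x y : ℂ) : ℂ :=
  H667R3.zeta P x + H667R3.zeta P y - H667R3.zeta P (x + y)

lemma Ph_symm (x y : ℂ) : Ph P x y = Ph P y x := by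
  unfold Ph; rw [add_comm y x]; ring

lemma Ph_third (x y : ℂ) : Ph P x (-x - y) = Ph P x y := by
  unfold Ph
  have e1 : x + (-x - y) = -y := by ring
  have e2 : -x - y = -(x + y) := by ring
  rw [e1, e2, H667R3.zeta_neg, H667R3.zeta_neg]
  ring

lemma Ph_add {x y l l' : ℂ} (hx : x ∉ P.lattice) (hy : y ∉ P.lattice) (hxy : x + y ∉ P.lattice)
    (hl : l ∈ P.lattice) (hl' : l' ∈ P.lattice) : Ph P (x + l) (y + l') = Ph P x y := by
  unfold Ph
  have e : x + l + (y + l') = x + y + (l + l') := by ring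
  rw [e, H667R3.zeta_add_coe P hx hl, H667R3.zeta_add_coe P hy hl',
    H667R3.zeta_add_coe P hxy (add_mem hl hl'), H667R3.eta_add P hl hl']
  ring

lemma Ph_congr {x y x' y' : ℂ} (hx : x ∉ P.lattice) (hy : y ∉ P.lattice) (hxy : x + y ∉ P.lattice)
    (h1 : x' - x ∈ P.lattice) (h2 : y' - y ∈ P.lattice) : Ph P x' y' = Ph P x y := by
  have := Ph_add hx hy hxy h1 h2
  have e1 : x + (x' - x) = x' := by ring
  have e2 : y + (y' - y) = y' := by ring
  rwa [e1, e2] at this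

/-- the function `f = ℘' + 2 c ℘` -/
def fc (P : PeriodPair) (c x : ℂ) : ℂ := ℘'[P] x + 2 * c * ℘[P] x

lemma fc_add {c x l : ℂ} (hl : l ∈ P.lattice) : fc P c (x + l) = fc P c x := by
  unfold fc
  rw [P.weierstrassP_add_coe x ⟨l, hl⟩, P.derivWeierstrassP_add_coe x ⟨l, hl⟩]

lemma fc_eq {c x y : ℂ} (hx : x ∉ P.lattice) (hy : y ∉ P.lattice) (hxy : x + y ∉ P.lattice)
    (h : Ph P x y = c) : fc P c x = fc P c y := by
  by_cases h2 : x - y ∈ P.lattice
  · have e : x = y + (x - y) := by ring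
    rw [e]
    exact fc_add h2
  · have h3 : ℘[P] x - ℘[P] y ≠ 0 := by
      rw [sub_ne_zero, Ne, H667R3.wp_eq_iff P hx hy]
      tauto
    have h4 := H667R3.zeta_add P hx hy hxy h2
    unfold Ph at h
    rw [h4] at h
    have h5 : -(℘'[P] x - ℘'[P] y) = c * (2 * (℘[P] x - ℘[P] y)) := by
      rw [← h]
      field_simp
      ring
    unfold fc
    linear_combination -h5

/-! ### the fibres -/

lemma two_v {v u : ℂ} (hv : 2 * v ∉ P.lattice) (hu : u ∉ P.lattice) (h1 : u - v ∉ P.lattice)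
    (h2 : u + v ∉ P.lattice) : Ph P (2 * v) (u - v) =
      H667R3.zeta P (2 * v) - 2 * H667R3.zeta P v - ℘'[P] v / (℘[P] v - ℘[P] u) := by
  have hv' := H667R3.two_mul_notMem_of P hv
  have a1 : v + u ∉ P.lattice := by rwa [add_comm]
  have a2 : v - u ∉ P.lattice := by
    intro h
    apply h1
    have := neg_mem h
    simpa using this
  have h3 := H667R3.zeta_aux P hv' hu a1 a2
  have h4 : ℘[P] v - ℘[P] u ≠ 0 := by
    rw [sub_ne_zero, Ne, H667R3.wp_eq_iff P hv' hu]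
    tauto
  unfold Ph
  have e1 : 2 * v + (u - v) = v + u := by ring
  have e2 : u - v = -(v - u) := by ring
  rw [e1, e2, H667R3.zeta_neg]
  field_simp
  linear_combination h3

lemma two_v' {v u : ℂ} (hv : 2 * v ∉ P.lattice) (hu : u ∈ P.lattice) : Ph P (2 * v) (u - v) =
      H667R3.zeta P (2 * v) - 2 * H667R3.zeta P v := by
  have hv' := H667R3.two_mul_notMem_of P hv
  have h1 : Ph P (2 * v + 0) (-v + u) = Ph P (2 * v) (-v) := by
    refine Ph_add hv ?_ ?_ (zero_mem _) hu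
    · intro h; apply hv'; have := neg_mem h; simpa using this
    · intro h; apply hv'
      have e : 2 * v + -v = v := by ring
      rwa [e] at h
  have e2 : u - v = -v + u := by ring
  rw [add_zero] at h1
  rw [e2, h1]
  unfold Ph
  have e3 : 2 * v + -v = v := by ring
  rw [e3, H667R3.zeta_neg]
  ring

lemma half (x : ℂ) : 2 * (x / 2) = x := by ring

lemma fib_exists {x : ℂ} (hx : x ∉ P.lattice) (c : ℂ) :
    ∃ y, y ∉ P.lattice ∧ x + y ∉ P.lattice ∧ Ph P x y = c := by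
  obtain ⟨v, hv⟩ : ∃ v, 2 * v = x := ⟨x / 2, half x⟩
  subst hv
  have hv' := H667R3.two_mul_notMem_of P hx
  have hp' := H667R3.wp'_ne_zero P hx
  set A := H667R3.zeta P (2 * v) - 2 * H667R3.zeta P v - c with hA
  by_cases hA0 : A = 0
  · refine ⟨0 - v, ?_, ?_, ?_⟩
    · intro h; apply hv'; have := neg_mem h; simpa using this
    · intro h; apply hv'
      have e : 2 * v + (0 - v) = v := by ring
      rwa [e] at h
    · rw [two_v' hx (zero_mem _)]
      linear_combination hA0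
  · obtain ⟨u, hu, hu'⟩ := H667R3.exists_wp_eq P (℘[P] v - ℘'[P] v / A)
    have h4 : ℘[P] u ≠ ℘[P] v := by
      rw [hu']
      intro h
      have h5 : ℘'[P] v / A = 0 := by linear_combination -h
      rcases div_eq_zero_iff.mp h5 with h6 | h6
      · exact hp' h6
      · exact hA0 h6
    have h5 := (H667R3.wp_eq_iff P hu hv').not.mp h4
    push Not at h5
    refine ⟨u - v, h5.2, ?_, ?_⟩
    · have e : 2 * v + (u - v) = u + v := by ring
      rw [e]; exact h5.1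
    · rw [two_v hx hu h5.2 h5.1, hu']
      have e : ℘[P] v - (℘[P] v - ℘'[P] v / A) = ℘'[P] v / A := by ring
      rw [e, div_div_eq_mul_div, mul_div_cancel_left₀ _ hp', hA]
      ring

lemma fib_unique {x y y' c : ℂ} (hx : x ∉ P.lattice) (hy : y ∉ P.lattice)
    (hxy : x + y ∉ P.lattice) (hy' : y' ∉ P.lattice) (hxy' : x + y' ∉ P.lattice)
    (h : Ph P x y = c) (h' : Ph P x y' = c) : y' - y ∈ P.lattice ∨ y' + (x + y) ∈ P.lattice := by
  obtain ⟨v, hv⟩ : ∃ v, 2 * v = x := ⟨x / 2, half x⟩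
  subst hv
  have hv' := H667R3.two_mul_notMem_of P hx
  have hp' := H667R3.wp'_ne_zero P hx
  obtain ⟨u, rfl⟩ : ∃ u, y = u - v := ⟨y + v, by ring⟩
  obtain ⟨u', rfl⟩ : ∃ u', y' = u' - v := ⟨y' + v, by ring⟩
  have e1 : u' - v - (u - v) = u' - u := by ring
  have e2 : u' - v + (2 * v + (u - v)) = u' + u := by ring
  have e3 : 2 * v + (u - v) = u + v := by ring
  have e4 : 2 * v + (u' - v) = u' + v := by ring
  rw [e1, e2]
  rw [e3] at hxy
  rw [e4] at hxy'
  have hne : ∀ t, t ∉ P.lattice → t - v ∉ P.lattice → t + v ∉ P.lattice → ℘[P] v - ℘[P] t ≠ 0 := by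
    intro t ht h1 h2
    rw [sub_ne_zero, Ne, H667R3.wp_eq_iff P hv' ht]
    push Not
    constructor
    · rwa [add_comm]
    · intro h; apply h1; have := neg_mem h; simpa using this
  by_cases hu : u ∈ P.lattice
  · by_cases hu' : u' ∈ P.lattice
    · left; exact sub_mem hu' hu
    · exfalso
      rw [two_v' hx hu] at h
      rw [two_v hx hu' hy' hxy', h] at h'
      have h5 : ℘'[P] v / (℘[P] v - ℘[P] u') = 0 := by linear_combination -h'
      rcases div_eq_zero_iff.mp h5 with h6 | h6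
      · exact hp' h6
      · exact hne u' hu' hy' hxy' h6
  · by_cases hu' : u' ∈ P.lattice
    · exfalso
      rw [two_v' hx hu'] at h'
      rw [two_v hx hu hy hxy, h'] at h
      have h5 : ℘'[P] v / (℘[P] v - ℘[P] u) = 0 := by linear_combination -h
      rcases div_eq_zero_iff.mp h5 with h6 | h6
      · exact hp' h6
      · exact hne u hu hy hxy h6
    · rw [two_v hx hu hy hxy] at h
      rw [two_v hx hu' hy' hxy'] at h'
      have n1 := hne u hu hy hxy
      have n2 := hne u' hu' hy' hxy'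
      have h5 : ℘'[P] v / (℘[P] v - ℘[P] u) = ℘'[P] v / (℘[P] v - ℘[P] u') := by
        linear_combination h' - h
      rw [div_eq_div_iff n1 n2] at h5
      have h6 := mul_left_cancel₀ hp' h5
      have h7 : ℘[P] u' = ℘[P] u := by linear_combination -h6
      have := (H667R3.wp_eq_iff P hu' hu).mp h7
      tauto

/-! ### the constant -/

/-- the value of `Ph` on the diagonal -/
def Dg (P : PeriodPair) (y : ℂ) : ℂ := Ph P y y

lemma Dg_eq {y : ℂ} (hy : 2 * y ∉ P.lattice) :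
    Dg P y = -(6 * ℘[P] y ^ 2 - P.g₂ / 2) / (2 * ℘'[P] y) := by
  unfold Dg Ph
  rw [← two_mul y, H667R3.zeta_two P hy]
  ring

lemma Dg_congr {x y : ℂ} (hy : 2 * y ∉ P.lattice) (h : x - y ∈ P.lattice) : Dg P x = Dg P y := by
  have hy' := H667R3.two_mul_notMem_of P hy
  exact Ph_congr hy' hy' (by rwa [← two_mul]) h h

lemma three_two {t : ℂ} (ht : t ∉ P.lattice) (h3 : 3 * t ∈ P.lattice) : 2 * t ∉ P.lattice := by
  intro h
  apply ht
  have := sub_mem h3 h
  have e : 3 * t - 2 * t = t := by ring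
  rwa [e] at this

lemma finite_flex (P : PeriodPair) :
    {c : ℂ | ∃ t, t ∉ P.lattice ∧ 3 * t ∈ P.lattice ∧ Dg P t = c}.Finite := by
  have hfin : ((fun q : ℤ × ℤ => Dg P ((q.1 * P.ω₁ + q.2 * P.ω₂) / 3)) ''
      (Set.Icc (0 : ℤ) 2 ×ˢ Set.Icc (0 : ℤ) 2)).Finite :=
    ((Set.finite_Icc _ _).prod (Set.finite_Icc _ _)).image _
  refine hfin.subset ?_
  rintro c ⟨t, ht, h3, rfl⟩
  obtain ⟨m, n, hmn⟩ := PeriodPair.mem_lattice.mp h3
  refine ⟨(m % 3, n % 3), ⟨⟨?_, ?_⟩, ?_, ?_⟩, ?_⟩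
  · exact Int.emod_nonneg _ (by norm_num)
  · have : m % 3 < 3 := Int.emod_lt_of_pos _ (by norm_num)
    change m % 3 ≤ 2
    omega
  · exact Int.emod_nonneg _ (by norm_num)
  · have : n % 3 < 3 := Int.emod_lt_of_pos _ (by norm_num)
    change n % 3 ≤ 2
    omega
  · change Dg P ((((m % 3 : ℤ) : ℂ) * P.ω₁ + ((n % 3 : ℤ) : ℂ) * P.ω₂) / 3) = Dg P t
    refine Dg_congr (three_two ht h3) ?_
    have hm : ((m % 3 : ℤ) : ℂ) = (m : ℂ) - 3 * ((m / 3 : ℤ) : ℂ) := by
      have := Int.emod_add_mul_ediv m 3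
      have h := congrArg (fun k : ℤ => (k : ℂ)) this
      push_cast at h ⊢
      linear_combination h
    have hn : ((n % 3 : ℤ) : ℂ) = (n : ℂ) - 3 * ((n / 3 : ℤ) : ℂ) := by
      have := Int.emod_add_mul_ediv n 3
      have h := congrArg (fun k : ℤ => (k : ℂ)) this
      push_cast at h ⊢
      linear_combination h
    have e : (((m % 3 : ℤ) : ℂ) * P.ω₁ + ((n % 3 : ℤ) : ℂ) * P.ω₂) / 3 - t =
        ((-(m / 3) : ℤ) : ℂ) * P.ω₁ + ((-(n / 3) : ℤ) : ℂ) * P.ω₂ := by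
      rw [hm, hn]
      push_cast
      linear_combination (1 / 3 : ℂ) * hmn
    rw [e]
    exact PeriodPair.mem_lattice.mpr ⟨_, _, rfl⟩

lemma exists_q (P : PeriodPair) : ∀ᶠ z in 𝓝 (0 : ℂ), z ≠ 0 →
    ℘[P] z * z ^ 2 = 1 + z ^ 2 * ℘[P - (0 : ℂ)] z ∧
    ℘'[P] z * z ^ 3 = -2 + z ^ 3 * ℘'[P - (0 : ℂ)] z := by
  refine Eventually.of_forall fun z hz => ⟨?_, ?_⟩
  · have e2 : ℘[P] z = ℘[P - (0 : ℂ)] z + 1 / z ^ 2 := by
      have := P.weierstrassPExcept_add (0 : P.lattice) z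
      simp at this
      rw [← this]; simp
    rw [e2]
    field_simp
    ring
  · have e2 : ℘'[P] z = ℘'[P - (0 : ℂ)] z - 2 / z ^ 3 := by
      have := P.derivWeierstrassPExcept_sub (0 : P.lattice) z
      simp at this
      rw [← this]
    rw [e2]
    field_simp
    ring

lemma analytic_q1 : AnalyticAt ℂ (fun z : ℂ => 1 + z ^ 2 * ℘[P - (0 : ℂ)] z) 0 := by
  have h : AnalyticAt ℂ (℘[P - (0 : ℂ)]) 0 := P.analyticAt_weierstrassPExcept 0
  exact analyticAt_const.fun_add ((analyticAt_id.pow 2).fun_mul h)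

lemma analytic_q2 : AnalyticAt ℂ (fun z : ℂ => -2 + z ^ 3 * ℘'[P - (0 : ℂ)] z) 0 := by
  have h : AnalyticAt ℂ (℘'[P - (0 : ℂ)]) 0 := P.analyticAt_derivWeierstrassPExcept 0
  exact analyticAt_const.fun_add ((analyticAt_id.pow 3).fun_mul h)

lemma eventually_two : ∀ᶠ z in 𝓝 (0 : ℂ), z ≠ 0 → 2 * z ∉ P.lattice := by
  have h1 := eventually_mem_lattice' (P := P) (zero_mem P.lattice)
  have h2 : Tendsto (fun z : ℂ => 2 * z) (𝓝 0) (𝓝 0) := by
    have : Continuous (fun z : ℂ => 2 * z) := by fun_prop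
    simpa using this.tendsto 0
  filter_upwards [h2 h1] with z hz h3 h4
  have : 2 * z = 0 := hz.mp h4
  exact h3 (by simpa using this)

lemma tendsto_Dg : Tendsto (fun z : ℂ => z * Dg P z) (𝓝[≠] 0) (𝓝 (3 / 2)) := by
  have h1 : Tendsto (fun z : ℂ => -(6 * (1 + z ^ 2 * ℘[P - (0 : ℂ)] z) ^ 2 - P.g₂ / 2 * z ^ 4) /
      (2 * (-2 + z ^ 3 * ℘'[P - (0 : ℂ)] z))) (𝓝 0) (𝓝 (3 / 2)) := by
    have c1 := (analytic_q1 (P := P)).continuousAt
    have c2 := (analytic_q2 (P := P)).continuousAt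
    have c3 : ContinuousAt (fun z : ℂ => -(6 * (1 + z ^ 2 * ℘[P - (0 : ℂ)] z) ^ 2 - P.g₂ / 2 * z ^ 4) /
      (2 * (-2 + z ^ 3 * ℘'[P - (0 : ℂ)] z))) 0 := by
      refine ContinuousAt.div ?_ ?_ ?_
      · exact ((continuousAt_const.mul (c1.pow 2)).sub
          (continuousAt_const.mul (continuousAt_id.pow 4))).neg
      · exact continuousAt_const.mul c2
      · simp
    have := c3.tendsto
    simp only [ne_eq, OfNat.ofNat_ne_zero, not_false_eq_true, zero_pow, zero_mul, add_zero,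
      mul_zero, sub_zero, one_pow, mul_one] at this
    convert this using 2
    norm_num
  refine (h1.mono_left nhdsWithin_le_nhds).congr' ?_
  have h2 := eventually_two (P := P)
  have h3 := exists_q P
  filter_upwards [nhdsWithin_le_nhds h2, nhdsWithin_le_nhds h3, self_mem_nhdsWithin] with z a1 a2 a3
  have hz : z ≠ 0 := a3
  obtain ⟨b1, b2⟩ := a2 hz
  have b3 := a1 hz
  rw [Dg_eq b3, ← b1, ← b2]
  have hp := H667R3.wp'_ne_zero P b3
  field_simp

/-- the conditions on the constant: there is a simple tangent line, no flexes -/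
def GoodC (P : PeriodPair) (c : ℂ) : Prop :=
  (∀ t, t ∉ P.lattice → 3 * t ∈ P.lattice → Dg P t ≠ c) ∧
    ∃ y, 2 * y ∉ P.lattice ∧ Dg P y = c

lemma exists_goodC (P : PeriodPair) : ∃ c, GoodC P c := by
  set V := {c : ℂ | ∃ t, t ∉ P.lattice ∧ 3 * t ∈ P.lattice ∧ Dg P t = c} with hV
  have h1 : ∀ v ∈ V, ∀ᶠ z in 𝓝[≠] (0 : ℂ), Dg P z ≠ v := by
    intro v _
    have h2 : Tendsto (fun z : ℂ => z * Dg P z - z * v) (𝓝[≠] 0) (𝓝 (3 / 2 - 0 * v)) := by
      refine tendsto_Dg.sub ?_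
      have : Tendsto (fun z : ℂ => z) (𝓝[≠] 0) (𝓝 0) := tendsto_id.mono_left nhdsWithin_le_nhds
      exact this.mul_const v
    have h3 : ∀ᶠ z in 𝓝[≠] (0 : ℂ), z * Dg P z - z * v ≠ 0 :=
      h2 (isOpen_ne.mem_nhds (by norm_num : (3 / 2 - 0 * v : ℂ) ≠ 0))
    filter_upwards [h3] with z hz h4
    apply hz
    rw [h4, sub_self]
  have h2 : ∀ᶠ z in 𝓝[≠] (0 : ℂ), ∀ v ∈ V, Dg P z ≠ v :=
    ((finite_flex P).eventually_all).mpr h1
  have h3 : ∀ᶠ z in 𝓝[≠] (0 : ℂ), 2 * z ∉ P.lattice := by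
    filter_upwards [nhdsWithin_le_nhds (eventually_two (P := P)), self_mem_nhdsWithin] with z a1 a2
    exact a1 a2
  obtain ⟨z, hz1, hz2⟩ := (h2.and h3).exists
  refine ⟨Dg P z, ?_, z, hz2, rfl⟩
  intro t ht h3t h
  exact hz1 (Dg P t) ⟨t, ht, h3t, rfl⟩ h.symm

end

end Pool.Agent.V1164.QD
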