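import Pool.Agent.V1164.QD.Sq

/-!
# The curve `ζ(x) + ζ(y) + ζ(z) = c` on `x + y + z = 0` in `E³`, second part
-/

set_option autoImplicit false

open Filter Topology
open scoped PeriodPair

namespace Pool.Agent.V1164.QD

noncomputable section

variable {P : PeriodPair}

/-- the derivative of the sigma function -/
def ds (P : PeriodPair) (x : ℂ) : ℂ := deriv (H667R3.sigma P) x

lemma analytic_sigma (x : ℂ) : AnalyticAt ℂ (H667R3.sigma P) x :=
  (H667R3.differentiable_sigma P).analyticAt x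

lemma analytic_ds (x : ℂ) : AnalyticAt ℂ (ds P) x := (analytic_sigma x).deriv

lemma ds_eq {x : ℂ} (hx : x ∉ P.lattice) : ds P x = H667R3.zeta P x * H667R3.sigma P x :=
  H667R3.deriv_sigma P hx

lemma ds_ne {x : ℂ} (hx : x ∈ P.lattice) : ds P x ≠ 0 := by
  obtain ⟨C, hC, hCs⟩ := H667R3.sigma_add_coe P hx
  have h1 : HasDerivAt (fun z => H667R3.sigma P (z + x)) (ds P (0 + x)) 0 :=
    ((H667R3.differentiable_sigma P) (0 + x)).hasDerivAt.comp_add_const 0 x
  have h2 : HasDerivAt (fun z => C * Complex.exp (H667R3.eta P x * z) * H667R3.sigma P z)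
      (C * 1) 0 := by
    have a1 : HasDerivAt (H667R3.sigma P) 1 0 := by
      rw [← H667R3.deriv_sigma_zero P]
      exact (H667R3.differentiable_sigma P 0).hasDerivAt
    have a2 : DifferentiableAt ℂ (fun z : ℂ => C * Complex.exp (H667R3.eta P x * z)) 0 := by
      fun_prop
    have a3 := a2.hasDerivAt.fun_mul a1
    refine a3.congr_deriv ?_
    rw [H667R3.sigma_zero]
    simp
  have h3 : (fun z => H667R3.sigma P (z + x)) =
      fun z => C * Complex.exp (H667R3.eta P x * z) * H667R3.sigma P z := funext hCs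
  rw [h3] at h1
  have h4 := h1.unique h2
  rw [zero_add, mul_one] at h4
  rw [h4]
  exact hC

/-- the equation of the curve -/
def Hf (P : PeriodPair) (c x y : ℂ) : ℂ :=
  ds P x * H667R3.sigma P y * H667R3.sigma P (x + y)
    + H667R3.sigma P x * ds P y * H667R3.sigma P (x + y)
    - H667R3.sigma P x * H667R3.sigma P y * ds P (x + y)
    - c * (H667R3.sigma P x * H667R3.sigma P y * H667R3.sigma P (x + y))

lemma Hf_eq {c x y : ℂ} (hx : x ∉ P.lattice) (hy : y ∉ P.lattice) (hxy : x + y ∉ P.lattice) :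
    Hf P c x y = H667R3.sigma P x * H667R3.sigma P y * H667R3.sigma P (x + y) * (Ph P x y - c) := by
  unfold Hf Ph
  rw [ds_eq hx, ds_eq hy, ds_eq hxy]
  ring

lemma Hf_zero_iff {c x y : ℂ} : Hf P c x y = 0 ↔
    ((x ∈ P.lattice ∧ y ∈ P.lattice) ∨
      (x ∉ P.lattice ∧ y ∉ P.lattice ∧ x + y ∉ P.lattice ∧ Ph P x y = c)) := by
  by_cases hx : x ∈ P.lattice
  · have hxy : x + y ∈ P.lattice ↔ y ∈ P.lattice := by
      rw [add_comm]; exact H667R3.add_mem_iff P hx
    have h1 : Hf P c x y = ds P x * H667R3.sigma P y * H667R3.sigma P (x + y) := by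
      unfold Hf
      rw [H667R3.sigma_coe_eq_zero P hx]; ring
    rw [h1, mul_eq_zero, mul_eq_zero, H667R3.sigma_eq_zero_iff, H667R3.sigma_eq_zero_iff, hxy]
    have := ds_ne hx
    tauto
  · by_cases hy : y ∈ P.lattice
    · have hxy : x + y ∈ P.lattice ↔ x ∈ P.lattice := H667R3.add_mem_iff P hy
      have h1 : Hf P c x y = H667R3.sigma P x * ds P y * H667R3.sigma P (x + y) := by
        unfold Hf
        rw [H667R3.sigma_coe_eq_zero P hy]; ring
      rw [h1, mul_eq_zero, mul_eq_zero, H667R3.sigma_eq_zero_iff, H667R3.sigma_eq_zero_iff, hxy]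
      have := ds_ne hy
      tauto
    · by_cases hxy : x + y ∈ P.lattice
      · have h1 : Hf P c x y = -(H667R3.sigma P x * H667R3.sigma P y * ds P (x + y)) := by
          unfold Hf
          rw [H667R3.sigma_coe_eq_zero P hxy]; ring
        rw [h1, neg_eq_zero, mul_eq_zero, mul_eq_zero, H667R3.sigma_eq_zero_iff,
          H667R3.sigma_eq_zero_iff]
        have := ds_ne hxy
        tauto
      · rw [Hf_eq hx hy hxy]
        have h1 := H667R3.sigma_ne_zero P hx
        have h2 := H667R3.sigma_ne_zero P hy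
        have h3 := H667R3.sigma_ne_zero P hxy
        rw [mul_eq_zero, sub_eq_zero]
        have h4 := mul_ne_zero (mul_ne_zero h1 h2) h3
        tauto

lemma Hf_zero_congr {c x y x' y' : ℂ} (h1 : x' - x ∈ P.lattice) (h2 : y' - y ∈ P.lattice) :
    Hf P c x' y' = 0 ↔ Hf P c x y = 0 := by
  have e1 : x' = x + (x' - x) := by ring
  have e2 : y' = y + (y' - y) := by ring
  have e3 : x' + y' = x + y + ((x' - x) + (y' - y)) := by ring
  have a1 : x' ∈ P.lattice ↔ x ∈ P.lattice := by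
    conv_lhs => rw [e1]
    exact H667R3.add_mem_iff P h1
  have a2 : y' ∈ P.lattice ↔ y ∈ P.lattice := by
    conv_lhs => rw [e2]
    exact H667R3.add_mem_iff P h2
  have a3 : x' + y' ∈ P.lattice ↔ x + y ∈ P.lattice := by
    conv_lhs => rw [e3]
    exact H667R3.add_mem_iff P (add_mem h1 h2)
  rw [Hf_zero_iff, Hf_zero_iff, a1, a2, a3]
  constructor
  · rintro (h | ⟨b1, b2, b3, b4⟩)
    · exact Or.inl h
    · right
      refine ⟨b1, b2, b3, ?_⟩
      rw [← b4]
      exact (Ph_congr b1 b2 b3 h1 h2).symm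
  · rintro (h | ⟨b1, b2, b3, b4⟩)
    · exact Or.inl h
    · right
      refine ⟨b1, b2, b3, ?_⟩
      rw [← b4]
      exact Ph_congr b1 b2 b3 h1 h2

lemma analytic_Hf (c : ℂ) (u : ℂ × ℂ) : AnalyticAt ℂ (fun v : ℂ × ℂ => Hf P c v.1 v.2) u := by
  have f1 : AnalyticAt ℂ (fun v : ℂ × ℂ => v.1) u := analyticAt_fst
  have f2 : AnalyticAt ℂ (fun v : ℂ × ℂ => v.2) u := analyticAt_snd
  have f3 : AnalyticAt ℂ (fun v : ℂ × ℂ => v.1 + v.2) u := f1.fun_add f2
  have s1 := AnalyticAt.fun_comp (g := H667R3.sigma P) (analytic_sigma _) f1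
  have s2 := AnalyticAt.fun_comp (g := H667R3.sigma P) (analytic_sigma _) f2
  have s3 := AnalyticAt.fun_comp (g := H667R3.sigma P) (analytic_sigma _) f3
  have d1 := AnalyticAt.fun_comp (g := ds P) (analytic_ds _) f1
  have d2 := AnalyticAt.fun_comp (g := ds P) (analytic_ds _) f2
  have d3 := AnalyticAt.fun_comp (g := ds P) (analytic_ds _) f3
  exact ((((d1.fun_mul s2).fun_mul s3).fun_add ((s1.fun_mul d2).fun_mul s3)).fun_sub
    ((s1.fun_mul s2).fun_mul d3)).fun_sub
      (analyticAt_const.fun_mul ((s1.fun_mul s2).fun_mul s3))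

/-- the curve in `E³` -/
def Sq (P : PeriodPair) (c : ℂ) : Set (Fin 3 → Ell P) :=
  {p | ∃ z : Fin 3 → ℂ, pr P z = p ∧ z 0 + z 1 + z 2 = 0 ∧ Hf P c (z 0) (z 1) = 0}

lemma mem_Sq {c : ℂ} (z : Fin 3 → ℂ) :
    pr P z ∈ Sq P c ↔ z 0 + z 1 + z 2 ∈ P.lattice ∧ Hf P c (z 0) (z 1) = 0 := by
  constructor
  · rintro ⟨w, hw, h1, h2⟩
    have h3 := (pr_eq_iff _ _).mp hw
    constructor
    · have := neg_mem (add_mem (add_mem (h3 0) (h3 1)) (h3 2))
      have e : -(w 0 - z 0 + (w 1 - z 1) + (w 2 - z 2)) = z 0 + z 1 + z 2 - (w 0 + w 1 + w 2) := by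
        ring
      rwa [e, h1, sub_zero] at this
    · exact (Hf_zero_congr (h3 0) (h3 1)).mp h2
  · rintro ⟨h1, h2⟩
    refine ⟨![z 0, z 1, -z 0 - z 1], ?_, ?_, h2⟩
    · rw [pr_eq_iff]
      intro i
      fin_cases i
      · simp
      · simp
      · have := neg_mem h1
        have e : -(z 0 + z 1 + z 2) = -z 0 - z 1 - z 2 := by ring
        rw [e] at this
        exact this
    · change z 0 + z 1 + (-z 0 - z 1) = 0
      ring

lemma isAnalytic_Sq (c : ℂ) : IsAnalyticSubset (Sq P c) := by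
  intro z
  have hcont : Continuous fun w : Fin 3 → ℂ => w 0 + w 1 + w 2 := by fun_prop
  have hco : ∀ l : Fin 3, AnalyticAt ℂ (fun w : Fin 3 → ℂ => w l) z := fun l =>
    (ContinuousLinearMap.proj (R := ℂ) (φ := fun _ : Fin 3 => ℂ) l).analyticAt _
  by_cases hz : z 0 + z 1 + z 2 ∈ P.lattice
  · refine ⟨2, fun w => ![Hf P c (w 0) (w 1), w 0 + w 1 + w 2 - (z 0 + z 1 + z 2)], ?_, ?_⟩
    · rw [analyticAt_pi_iff]
      intro i
      fin_cases i
      · exact AnalyticAt.fun_comp (g := fun v : ℂ × ℂ => Hf P c v.1 v.2)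
          (f := fun w : Fin 3 → ℂ => (w 0, w 1)) (analytic_Hf c _) (analyticAt_pair 0 1 z)
      · exact (((hco 0).fun_add (hco 1)).fun_add (hco 2)).fun_sub analyticAt_const
    · filter_upwards [hcont.tendsto z (eventually_mem_lattice' hz)] with w hw
      have hw' : w 0 + w 1 + w 2 ∈ P.lattice ↔ w 0 + w 1 + w 2 = z 0 + z 1 + z 2 := hw
      rw [mem_Sq, hw']
      constructor
      · rintro ⟨h1, h2⟩
        funext i
        fin_cases i
        · exact h2
        · exact sub_eq_zero.mpr h1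
      · intro h
        exact ⟨sub_eq_zero.mp (congrFun h 1), congrFun h 0⟩
  · refine ⟨1, fun _ _ => 1, analyticAt_const, ?_⟩
    filter_upwards [hcont.tendsto z (eventually_notMem_lattice hz)] with w hw
    rw [mem_Sq]
    constructor
    · intro h
      exact absurd h.1 hw
    · intro h
      exact absurd (congrFun h 0) one_ne_zero

/-- the derivative of the equation -/
lemma hasDerivAt_Hf {c x y : ℂ} (hx : x ∉ P.lattice) (hy : y ∉ P.lattice)
    (hxy : x + y ∉ P.lattice) (h0 : Ph P x y = c) :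
    HasDerivAt (fun y => Hf P c x y)
      (H667R3.sigma P x * H667R3.sigma P y * H667R3.sigma P (x + y) *
        (℘[P] (x + y) - ℘[P] y)) y := by
  have hxy' : ∀ᶠ t in 𝓝 y, x + t ∉ P.lattice := by
    have : Tendsto (fun t => x + t) (𝓝 y) (𝓝 (x + y)) :=
      (continuous_const.add continuous_id).tendsto y
    exact this (eventually_notMem_lattice hxy)
  have h1 : (fun y => Hf P c x y) =ᶠ[𝓝 y] fun y => (H667R3.sigma P x * H667R3.sigma P y *
      H667R3.sigma P (x + y)) * (Ph P x y - c) := by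
    filter_upwards [eventually_notMem_lattice hy, hxy'] with t ht ht'
    exact Hf_eq hx ht ht'
  have h3 : HasDerivAt (fun t => Ph P x t) (-℘[P] y - -℘[P] (x + y)) y := by
    have a1 := H667R3.hasDerivAt_zeta P hy
    have a2 : HasDerivAt (fun t => H667R3.zeta P (x + t)) (-℘[P] (x + y)) y :=
      (H667R3.hasDerivAt_zeta P hxy).comp_const_add x y
    exact (a1.const_add (H667R3.zeta P x)).fun_sub a2
  have hs := H667R3.differentiable_sigma P
  have h4 : DifferentiableAt ℂ (fun t => H667R3.sigma P x * H667R3.sigma P t *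
      H667R3.sigma P (x + t)) y := by
    have b1 : DifferentiableAt ℂ (fun t => H667R3.sigma P t) y := hs y
    have b2 : DifferentiableAt ℂ (fun t => H667R3.sigma P (x + t)) y :=
      (hs (x + y)).comp y (by fun_prop)
    exact (b1.const_mul _).fun_mul b2
  have h5 := h4.hasDerivAt.fun_mul (h3.sub_const c)
  refine (h5.congr_deriv ?_).congr_of_eventuallyEq h1
  rw [h0]; ring

lemma Hf_symm (c x y : ℂ) : Hf P c x y = Hf P c y x := by
  unfold Hf
  rw [add_comm y x]; ring

lemma smooth0_Sq {c : ℂ} (z : Fin 3 → ℂ) (hsum : z 0 + z 1 + z 2 = 0)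
    (hx : z 0 ∉ P.lattice) (hy : z 1 ∉ P.lattice) (hxy : z 0 + z 1 ∉ P.lattice)
    (h0 : Ph P (z 0) (z 1) = c) (hne : ℘[P] (z 0 + z 1) ≠ ℘[P] (z 1)) :
    IsSmoothCurveAt (Sq P c) (pr P z) := by
  have hcont : Continuous fun w : Fin 3 → ℂ => w 0 + w 1 + w 2 := by fun_prop
  have hz : z 0 + z 1 + z 2 ∈ P.lattice := by rw [hsum]; exact zero_mem _
  have hH : Hf P c (z 0) (z 1) = 0 := Hf_zero_iff.mpr (Or.inr ⟨hx, hy, hxy, h0⟩)
  obtain ⟨ψ, hψ, hψ0, hψ'⟩ := ift (F := fun v : ℂ × ℂ => Hf P c v.1 v.2) (u := (z 0, z 1))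
    (analytic_Hf c _) hH (hasDerivAt_Hf hx hy hxy h0)
    (mul_ne_zero (mul_ne_zero (mul_ne_zero (H667R3.sigma_ne_zero P hx) (H667R3.sigma_ne_zero P hy))
      (H667R3.sigma_ne_zero P hxy)) (sub_ne_zero.mpr hne))
  refine ⟨z, 0, fun t => ![t, ψ t, -t - ψ t], rfl, ?_, fun t => rfl, ?_⟩
  · apply analyticAt_graph
    intro i
    fin_cases i
    · exact analyticAt_id
    · exact hψ
    · exact (analyticAt_id.fun_neg).fun_sub hψ
  · have hc : Tendsto (fun w : Fin 3 → ℂ => (w 0, w 1)) (𝓝 z) (𝓝 (z 0, z 1)) :=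
      (analyticAt_pair 0 1 z).continuousAt
    filter_upwards [hc hψ', hcont.tendsto z (eventually_mem_lattice' hz)] with w hw hw2
    have hw3 : w 0 + w 1 + w 2 ∈ P.lattice ↔ w 0 + w 1 + w 2 = z 0 + z 1 + z 2 := hw2
    rw [mem_Sq, hw3, hsum]
    have hw' : Hf P c (w 0) (w 1) = 0 ↔ w 1 = ψ (w 0) := hw
    rw [hw']
    constructor
    · rintro ⟨h, h'⟩
      funext i
      fin_cases i
      · rfl
      · exact h'
      · change w 2 = -w 0 - ψ (w 0)
        rw [← h']
        linear_combination h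
    · intro h
      have a1 : w 1 = ψ (w 0) := congrFun h 1
      have a2 : w 2 = -w 0 - ψ (w 0) := congrFun h 2
      exact ⟨by rw [a2, a1]; ring, a1⟩

lemma smooth1_Sq {c : ℂ} (z : Fin 3 → ℂ) (hsum : z 0 + z 1 + z 2 = 0)
    (hx : z 0 ∉ P.lattice) (hy : z 1 ∉ P.lattice) (hxy : z 0 + z 1 ∉ P.lattice)
    (h0 : Ph P (z 0) (z 1) = c) (hne : ℘[P] (z 0 + z 1) ≠ ℘[P] (z 0)) :
    IsSmoothCurveAt (Sq P c) (pr P z) := by
  have hcont : Continuous fun w : Fin 3 → ℂ => w 0 + w 1 + w 2 := by fun_prop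
  have hz : z 0 + z 1 + z 2 ∈ P.lattice := by rw [hsum]; exact zero_mem _
  have hxy' : z 1 + z 0 ∉ P.lattice := by rwa [add_comm]
  have h0' : Ph P (z 1) (z 0) = c := by rw [Ph_symm]; exact h0
  have hne' : ℘[P] (z 1 + z 0) ≠ ℘[P] (z 0) := by rwa [add_comm]
  have hH : Hf P c (z 1) (z 0) = 0 := Hf_zero_iff.mpr (Or.inr ⟨hy, hx, hxy', h0'⟩)
  obtain ⟨ψ, hψ, hψ0, hψ'⟩ := ift (F := fun v : ℂ × ℂ => Hf P c v.1 v.2) (u := (z 1, z 0))
    (analytic_Hf c _) hH (hasDerivAt_Hf hy hx hxy' h0')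
    (mul_ne_zero (mul_ne_zero (mul_ne_zero (H667R3.sigma_ne_zero P hy) (H667R3.sigma_ne_zero P hx))
      (H667R3.sigma_ne_zero P hxy')) (sub_ne_zero.mpr hne'))
  refine ⟨z, 1, fun t => ![ψ t, t, -t - ψ t], rfl, ?_, fun t => rfl, ?_⟩
  · apply analyticAt_graph
    intro i
    fin_cases i
    · exact hψ
    · exact analyticAt_id
    · exact (analyticAt_id.fun_neg).fun_sub hψ
  · have hc : Tendsto (fun w : Fin 3 → ℂ => (w 1, w 0)) (𝓝 z) (𝓝 (z 1, z 0)) :=
      (analyticAt_pair 1 0 z).continuousAt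
    filter_upwards [hc hψ', hcont.tendsto z (eventually_mem_lattice' hz)] with w hw hw2
    have hw3 : w 0 + w 1 + w 2 ∈ P.lattice ↔ w 0 + w 1 + w 2 = z 0 + z 1 + z 2 := hw2
    rw [mem_Sq, hw3, hsum]
    have hw' : Hf P c (w 1) (w 0) = 0 ↔ w 0 = ψ (w 1) := hw
    rw [Hf_symm, hw']
    constructor
    · rintro ⟨h, h'⟩
      funext i
      fin_cases i
      · exact h'
      · rfl
      · change w 2 = -w 1 - ψ (w 1)
        rw [← h']
        linear_combination h
    · intro h
      have a1 : w 0 = ψ (w 1) := congrFun h 0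
      have a2 : w 2 = -w 1 - ψ (w 1) := congrFun h 2
      exact ⟨by rw [a2, a1]; ring, a1⟩

lemma smooth_Sq {c : ℂ} (hc : GoodC P c) : ∀ p ∈ Sq P c \ {0}, IsSmoothCurveAt (Sq P c) p := by
  rintro p ⟨⟨z, rfl, hsum, hH⟩, hp⟩
  rcases Hf_zero_iff.mp hH with ⟨hx, hy⟩ | ⟨hx, hy, hxy, h0⟩
  · exfalso
    apply hp
    simp only [Set.mem_singleton_iff]
    funext i
    rw [pr_apply]
    refine (coe_eq_zero_iff _).mpr ?_
    fin_cases i
    · exact hx
    · exact hy
    · have e : z 2 = -(z 0 + z 1) := by linear_combination hsum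
      change z 2 ∈ P.lattice
      rw [e]
      exact neg_mem (add_mem hx hy)
  · by_cases h1 : ℘[P] (z 0 + z 1) = ℘[P] (z 1)
    · by_cases h2 : ℘[P] (z 0 + z 1) = ℘[P] (z 0)
      · exfalso
        have a1 := (H667R3.wp_eq_iff P hxy hy).mp h1
        have a2 := (H667R3.wp_eq_iff P hxy hx).mp h2
        have b1 : z 0 + z 1 + z 1 ∈ P.lattice := by
          rcases a1 with h | h
          · exact h
          · exfalso; apply hx
            have e : z 0 + z 1 - z 1 = z 0 := by ring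
            rwa [e] at h
        have b2 : z 0 + z 1 + z 0 ∈ P.lattice := by
          rcases a2 with h | h
          · exact h
          · exfalso; apply hy
            have e : z 0 + z 1 - z 0 = z 1 := by ring
            rwa [e] at h
        have b3 : z 1 - z 0 ∈ P.lattice := by
          have := sub_mem b1 b2
          have e : z 0 + z 1 + z 1 - (z 0 + z 1 + z 0) = z 1 - z 0 := by ring
          rwa [e] at this
        have b4 : 3 * z 0 ∈ P.lattice := by
          have := sub_mem b2 b3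
          have e : z 0 + z 1 + z 0 - (z 1 - z 0) = 3 * z 0 := by ring
          rwa [e] at this
        refine hc.1 (z 0) hx b4 ?_
        have b5 := three_two hx b4
        have b6 : Ph P (z 0) (z 1) = Ph P (z 0) (z 0) := by
          refine Ph_congr hx hx (by rwa [← two_mul]) ?_ b3
          rw [sub_self]; exact zero_mem _
        unfold Dg
        rw [← b6, h0]
      · exact smooth1_Sq z hsum hx hy hxy h0 h2
    · exact smooth0_Sq z hsum hx hy hxy h0 h1

end

end Pool.Agent.V1164.QD
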