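import Pool.Agent.V1164.QD.Sq2

/-!
# The curve `ζ(x) + ζ(y) + ζ(z) = c` on `x + y + z = 0` in `E³`, third part
-/

set_option autoImplicit false

open Filter Topology
open scoped PeriodPair

namespace Pool.Agent.V1164.QD

noncomputable section

variable {P : PeriodPair}

lemma zero_mem_Sq {c : ℂ} : (0 : Fin 3 → Ell P) ∈ Sq P c := by
  refine ⟨0, ?_, by simp, ?_⟩
  · funext i
    exact (coe_eq_zero_iff _).mpr (zero_mem _)
  · exact Hf_zero_iff.mpr (Or.inl ⟨zero_mem _, zero_mem _⟩)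

/-- points of the curve: the description by coordinates -/
lemma Sq_cases {c : ℂ} {p : Fin 3 → Ell P} (hp : p ∈ Sq P c) :
    p = 0 ∨ ∃ z : Fin 3 → ℂ, pr P z = p ∧ z 0 + z 1 + z 2 = 0 ∧ z 0 ∉ P.lattice ∧
      z 1 ∉ P.lattice ∧ z 2 ∉ P.lattice ∧ z 0 + z 1 ∉ P.lattice ∧ Ph P (z 0) (z 1) = c := by
  obtain ⟨z, rfl, hsum, hH⟩ := hp
  have e : z 2 = -(z 0 + z 1) := by linear_combination hsum
  rcases Hf_zero_iff.mp hH with ⟨hx, hy⟩ | ⟨hx, hy, hxy, h0⟩
  · left
    funext i
    rw [pr_apply]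
    refine (coe_eq_zero_iff _).mpr ?_
    fin_cases i
    · exact hx
    · exact hy
    · change z 2 ∈ P.lattice
      rw [e]
      exact neg_mem (add_mem hx hy)
  · right
    refine ⟨z, rfl, hsum, hx, hy, ?_, hxy, h0⟩
    rw [e]
    intro h
    apply hxy
    have := neg_mem h
    simpa using this

lemma Sq_coord_zero {c : ℂ} {p : Fin 3 → Ell P} (hp : p ∈ Sq P c) {i : Fin 3} (hi : p i = 0) :
    p = 0 := by
  rcases Sq_cases hp with h | ⟨z, rfl, hsum, hx, hy, hz, hxy, h0⟩
  · exact h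
  · exfalso
    rw [pr_apply, coe_eq_zero_iff] at hi
    fin_cases i
    · exact hx hi
    · exact hy hi
    · exact hz hi

lemma isPreconnected_ne_zero : IsPreconnected {x : Ell P | x ≠ 0} := by
  have h := (H667R3.isPreconnected_compl P).image (fun z : ℂ => (z : Ell P))
    continuous_coe.continuousOn
  have e : (fun z : ℂ => (z : Ell P)) '' (P.lattice : Set ℂ)ᶜ = {x : Ell P | x ≠ 0} := by
    ext x
    constructor
    · rintro ⟨z, hz, rfl⟩ h
      exact hz ((coe_eq_zero_iff _).mp h)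
    · intro hx
      obtain ⟨z, rfl⟩ := exists_coe x
      exact ⟨z, fun hz => hx ((coe_eq_zero_iff _).mpr hz), rfl⟩
  rw [e] at h
  exact h

lemma neg_notMem {x : ℂ} (hx : x ∉ P.lattice) : -x ∉ P.lattice := by
  intro h
  apply hx
  have := neg_mem h
  simpa using this

lemma third {x y : ℂ} (hy : y ∉ P.lattice) (hxy : x + y ∉ P.lattice) :
    -x - y ∉ P.lattice ∧ x + (-x - y) ∉ P.lattice := by
  constructor
  · have := neg_notMem hxy
    have e : -(x + y) = -x - y := by ring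
    rwa [e] at this
  · have := neg_notMem hy
    have e : x + (-x - y) = -y := by ring
    rwa [e]

lemma swap_mem_Sq {c : ℂ} {p : Fin 3 → Ell P} (hp : p ∈ Sq P c) :
    ![p 0, p 2, p 1] ∈ Sq P c := by
  rcases Sq_cases hp with rfl | ⟨z, rfl, hsum, hx, hy, hz, hxy, h0⟩
  · convert zero_mem_Sq (P := P) (c := c) using 1
    funext i
    fin_cases i <;> rfl
  · refine ⟨![z 0, z 2, z 1], ?_, ?_, ?_⟩
    · funext i
      fin_cases i <;> rfl
    · change z 0 + z 2 + z 1 = 0
      linear_combination hsum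
    · change Hf P c (z 0) (z 2) = 0
      have e : z 2 = -z 0 - z 1 := by linear_combination hsum
      rw [e]
      obtain ⟨t1, t2⟩ := third hy hxy
      exact Hf_zero_iff.mpr (Or.inr ⟨hx, t1, t2, by rw [Ph_third]; exact h0⟩)

lemma mk_mem_Sq {c x y : ℂ} (hx : x ∉ P.lattice) (hy : y ∉ P.lattice) (hxy : x + y ∉ P.lattice)
    (h0 : Ph P x y = c) : pr P ![x, y, -x - y] ∈ Sq P c :=
  ⟨_, rfl, by change x + y + (-x - y) = 0; ring, Hf_zero_iff.mpr (Or.inr ⟨hx, hy, hxy, h0⟩)⟩

lemma diff_eq {c : ℂ} : Sq P c \ {0} = Sq P c ∩ (fun p => p 0) ⁻¹' {x : Ell P | x ≠ 0} := by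
  ext p
  constructor
  · rintro ⟨h1, h2⟩
    exact ⟨h1, fun h3 => h2 (Sq_coord_zero h1 h3)⟩
  · rintro ⟨h1, h2⟩
    refine ⟨h1, fun h3 => h2 ?_⟩
    rw [Set.mem_singleton_iff.mp h3]
    rfl

/-- the point of the curve with a tangent line -/
lemma exists_tangent {c : ℂ} (hc : GoodC P c) : ∃ x y : ℂ, x ∉ P.lattice ∧ y ∉ P.lattice ∧
    x + y ∉ P.lattice ∧ Ph P x y = c ∧ -x - y = y ∧ x - y ∉ P.lattice := by
  obtain ⟨y, hy2, hD⟩ := hc.2
  have hy := H667R3.two_mul_notMem_of P hy2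
  refine ⟨-(2 * y), y, neg_notMem hy2, hy, ?_, ?_, by ring, ?_⟩
  · have e : -(2 * y) + y = -y := by ring
    rw [e]; exact neg_notMem hy
  · rw [← hD]
    unfold Dg Ph
    have e : -(2 * y) + y = -y := by ring
    rw [e, H667R3.zeta_neg, H667R3.zeta_neg, ← two_mul y]
    ring
  · intro h
    have e : -(2 * y) - y = -(3 * y) := by ring
    rw [e] at h
    have h3 : 3 * y ∈ P.lattice := by
      have := neg_mem h
      simpa using this
    exact hc.1 y hy h3 hD

lemma connected_Sq {c : ℂ} (hc : GoodC P c) : IsConnected (Sq P c \ {0}) := by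
  obtain ⟨x₀, y₀, hx₀, hy₀, hxy₀, h₀, hz₀, -⟩ := exists_tangent hc
  have hmem := mk_mem_Sq hx₀ hy₀ hxy₀ h₀
  have hne : pr P ![x₀, y₀, -x₀ - y₀] 0 ≠ 0 := by
    rw [pr_apply, ne_eq, coe_eq_zero_iff]
    exact hx₀
  refine ⟨⟨_, hmem, fun h => hne ?_⟩, ?_⟩
  · rw [Set.mem_singleton_iff.mp h]; rfl
  rw [diff_eq]
  set π : (Fin 3 → Ell P) → Ell P := fun p => p 0 with hπ
  set τ : (Fin 3 → Ell P) → (Fin 3 → Ell P) := fun p => ![p 0, p 2, p 1] with hτ
  refine preconnected_of_double (A := Sq P c) (isAnalytic_Sq c).isClosed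
    isPreconnected_ne_zero (π := π) (by fun_prop) (τ := τ) ?_ (fun s hs _ => swap_mem_Sq hs)
    (fun _ _ _ => rfl) ?_ ?_ (s₀ := pr P ![x₀, y₀, -x₀ - y₀]) hmem hne ?_
  · refine continuous_pi fun i => ?_
    fin_cases i
    · exact continuous_apply (0 : Fin 3)
    · exact continuous_apply (2 : Fin 3)
    · exact continuous_apply (1 : Fin 3)
  · intro u hu
    obtain ⟨x, rfl⟩ := exists_coe u
    have hx : x ∉ P.lattice := fun h => hu ((coe_eq_zero_iff _).mpr h)
    obtain ⟨y, hy, hxy, h⟩ := fib_exists hx c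
    exact ⟨_, mk_mem_Sq hx hy hxy h, rfl⟩
  · intro s hs s' hs' hU h
    rcases Sq_cases hs with rfl | ⟨z, rfl, hsum, hx, hy, hz, hxy, h0⟩
    · exact absurd rfl hU
    rcases Sq_cases hs' with rfl | ⟨z', rfl, hsum', hx', hy', hz', hxy', h0'⟩
    · have : pr P z 0 = 0 := h
      exact absurd this hU
    have h1 : z 0 - z' 0 ∈ P.lattice := (coe_eq_iff _ _).mp h
    have h2 : z 0 + z' 1 ∉ P.lattice := by
      intro h3
      apply hxy'
      have := sub_mem h3 h1
      have e : z 0 + z' 1 - (z 0 - z' 0) = z' 0 + z' 1 := by ring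
      rwa [e] at this
    have h3 : Ph P (z 0) (z' 1) = c := by
      rw [← h0']
      exact Ph_congr hx' hy' hxy' h1 (by rw [sub_self]; exact zero_mem _)
    rcases fib_unique hx hy hxy hy' h2 h0 h3 with h4 | h4
    · left
      rw [pr_eq_iff]
      intro i
      fin_cases i
      · have := neg_mem h1
        simpa using this
      · exact h4
      · change z' 2 - z 2 ∈ P.lattice
        have := sub_mem h1 h4
        have e : z 0 - z' 0 - (z' 1 - z 1) = z' 2 - z 2 := by linear_combination hsum - hsum'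
        rwa [e] at this
    · right
      have e0 : τ (pr P z) = pr P ![z 0, z 2, z 1] := by
        funext i
        fin_cases i <;> rfl
      rw [e0, pr_eq_iff]
      intro i
      fin_cases i
      · have := neg_mem h1
        simpa using this
      · change z' 1 - z 2 ∈ P.lattice
        have e : z' 1 + (z 0 + z 1) = z' 1 - z 2 := by linear_combination hsum
        rwa [e] at h4
      · change z' 2 - z 1 ∈ P.lattice
        have := sub_mem h1 h4
        have e : z 0 - z' 0 - (z' 1 + (z 0 + z 1)) = z' 2 - z 1 := by linear_combination - hsum'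
        rwa [e] at this
  · funext i
    fin_cases i
    · rfl
    · change pr P ![x₀, y₀, -x₀ - y₀] 2 = pr P ![x₀, y₀, -x₀ - y₀] 1
      rw [pr_apply, pr_apply]
      change ((-x₀ - y₀ : ℂ) : Ell P) = ((y₀ : ℂ) : Ell P)
      rw [hz₀]
    · change pr P ![x₀, y₀, -x₀ - y₀] 1 = pr P ![x₀, y₀, -x₀ - y₀] 2
      rw [pr_apply, pr_apply]
      change ((y₀ : ℂ) : Ell P) = ((-x₀ - y₀ : ℂ) : Ell P)
      rw [hz₀]

lemma not_isClosed_ne_zero : ¬ IsClosed {x : Ell P | x ≠ 0} := by
  intro h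
  have h1 : IsClosed ({0} : Set (Ell P)) := isClosed_singleton
  have h2 : IsClopen ({0} : Set (Ell P)) := by
    refine ⟨h1, ?_⟩
    have : ({0} : Set (Ell P)) = {x : Ell P | x ≠ 0}ᶜ := by
      ext x; simp
    rw [this]
    exact h.isOpen_compl
  haveI : PreconnectedSpace (Ell P) := ⟨isPreconnected_univ_Ell⟩
  rcases isClopen_iff.mp h2 with h3 | h3
  · exact Set.singleton_ne_empty _ h3
  · have h4 : ((P.ω₁ / 2 : ℂ) : Ell P) ∈ ({0} : Set (Ell P)) := by rw [h3]; trivial
    exact P.ω₁_div_two_notMem_lattice ((coe_eq_zero_iff _).mp (Set.mem_singleton_iff.mp h4))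

lemma closure_Sq {c : ℂ} : Sq P c ⊆ closure (Sq P c \ {0}) := by
  intro p hp
  by_cases h : p = 0
  · subst h
    by_contra hcl
    have h1 : Sq P c \ {0} = closure (Sq P c \ {0}) := by
      apply Set.Subset.antisymm subset_closure
      intro q hq
      refine ⟨?_, ?_⟩
      · exact closure_minimal Set.sdiff_subset (isAnalytic_Sq c).isClosed hq
      · intro h2
        rw [Set.mem_singleton_iff.mp h2] at hq
        exact hcl hq
    have h2 : IsClosed (Sq P c \ {0}) := by rw [h1]; exact isClosed_closure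
    have h3 : IsClosed ((fun p : Fin 3 → Ell P => p 0) '' (Sq P c \ {0})) :=
      (h2.isCompact.image (continuous_apply 0)).isClosed
    apply not_isClosed_ne_zero (P := P)
    convert h3 using 1
    ext u
    constructor
    · intro hu
      obtain ⟨x, rfl⟩ := exists_coe u
      have hx : x ∉ P.lattice := fun h => hu ((coe_eq_zero_iff _).mpr h)
      obtain ⟨y, hy, hxy, h⟩ := fib_exists hx c
      refine ⟨_, ⟨mk_mem_Sq hx hy hxy h, fun h4 => hu ?_⟩, rfl⟩
      have := congrFun (Set.mem_singleton_iff.mp h4) 0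
      exact this
    · rintro ⟨q, ⟨hq1, hq2⟩, rfl⟩ h4
      exact hq2 (Sq_coord_zero hq1 h4)
  · exact subset_closure ⟨hp, h⟩

lemma curve_Sq {c : ℂ} (hc : GoodC P c) : IsIrreducibleCurve (Sq P c) :=
  ⟨isAnalytic_Sq c, {0}, Set.finite_singleton _, smooth_Sq hc, connected_Sq hc, closure_Sq⟩

end

end Pool.Agent.V1164.QD
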