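import Pool.Agent.V1164.QD.Sq3

/-!
# The curve `ζ(x) + ζ(y) + ζ(z) = c` on `x + y + z = 0` in `E³`: the line bundle
-/

set_option autoImplicit false

open Filter Topology
open scoped PeriodPair

namespace Pool.Agent.V1164.QD

noncomputable section

variable {P : PeriodPair}

/-- the function `℘'` with its triple pole -/
def T3 (P : PeriodPair) : PoleFun P where
  f := ℘'[P]
  per := fun z l hl => P.derivWeierstrassP_add_coe z ⟨l, hl⟩
  an := fun z hz => P.analyticOnNhd_derivWeierstrassP z hz
  d := 3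
  hd := three_ne_zero
  q := fun z => -2 + z ^ 3 * ℘'[P - (0 : ℂ)] z
  hq := analytic_q2
  hq0 := by simp
  near := by
    filter_upwards [exists_q P] with z hz h
    exact (hz h).2

/-- the function `f = ℘' + 2 c ℘` with its triple pole -/
def Tc (P : PeriodPair) (c : ℂ) : PoleFun P where
  f := fc P c
  per := fun z l hl => fc_add hl
  an := by
    intro z hz
    have h1 : AnalyticAt ℂ (℘'[P]) z := P.analyticOnNhd_derivWeierstrassP z hz
    have h2 : AnalyticAt ℂ (℘[P]) z := P.analyticOnNhd_weierstrassP z hz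
    exact h1.fun_add (analyticAt_const.fun_mul h2)
  d := 3
  hd := three_ne_zero
  q := fun z => (-2 + z ^ 3 * ℘'[P - (0 : ℂ)] z) + 2 * c * z * (1 + z ^ 2 * ℘[P - (0 : ℂ)] z)
  hq := analytic_q2.fun_add ((analyticAt_const.fun_mul analyticAt_id).fun_mul analytic_q1)
  hq0 := by simp
  near := by
    filter_upwards [exists_q P] with z hz h
    obtain ⟨h1, h2⟩ := hz h
    rw [← h1, ← h2]
    unfold fc
    ring

/-- the quotient `℘' / f` is holomorphic and not zero at the origin -/
lemma exists_R (c : ℂ) : ∃ R : ℂ → ℂ, AnalyticAt ℂ R 0 ∧ R 0 = 1 ∧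
    ∀ᶠ z in 𝓝 (0 : ℂ), z ≠ 0 → ℘'[P] z = R z * fc P c z ∧ fc P c z ≠ 0 ∧ R z ≠ 0 := by
  refine ⟨fun z => (T3 P).q z / (Tc P c).q z, (T3 P).hq.div (Tc P c).hq (Tc P c).hq0, ?_, ?_⟩
  · simp [T3, Tc]
  · filter_upwards [(T3 P).near, (Tc P c).near, (T3 P).near_ne, (Tc P c).near_ne,
      (Tc P c).hq.continuousAt.eventually_ne (Tc P c).hq0,
      (T3 P).hq.continuousAt.eventually_ne (T3 P).hq0] with z h1 h2 h3 h4 h5 h6 h
    have a1 : ℘'[P] z * z ^ 3 = (T3 P).q z := h1 h
    have a2 : fc P c z * z ^ 3 = (Tc P c).q z := h2 h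
    have a4 : fc P c z ≠ 0 := h4 h
    refine ⟨?_, a4, div_ne_zero h6 h5⟩
    rw [← a1, ← a2]
    have hz3 : z ^ 3 ≠ 0 := pow_ne_zero _ h
    field_simp

/-- on the curve, outside the origin, the function `f` has the same value at all coordinates -/
lemma Sq_f {c : ℂ} {p : Fin 3 → Ell P} (hp : p ∈ Sq P c) (h : p ≠ 0) (a b : Fin 3) :
    (Tc P c).E (p a) = (Tc P c).E (p b) := by
  rcases Sq_cases hp with h' | ⟨z, rfl, hsum, hx, hy, hz, hxy, h0⟩
  · exact absurd h' h
  have e : z 2 = -z 0 - z 1 := by linear_combination hsum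
  obtain ⟨t1, t2⟩ := third hy hxy
  have h01 : fc P c (z 0) = fc P c (z 1) := fc_eq hx hy hxy h0
  have h02 : fc P c (z 0) = fc P c (z 2) := by
    rw [e]
    exact fc_eq hx t1 t2 (by rw [Ph_third]; exact h0)
  have key : ∀ i, fc P c (z i) = fc P c (z 0) := by
    intro i
    fin_cases i
    · rfl
    · exact h01.symm
    · exact h02.symm
  simp only [pr_apply, PoleFun.E_coe]
  change fc P c (z a) = fc P c (z b)
  rw [key a, key b]

open Classical in
/-- the section trivializing `p_a^* L ⊗ (p_b^* L)⁻¹` -/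
def sSq (P : PeriodPair) (a b : Fin 3) : Bool → Bool → (Fin 3 → Ell P) → ℂ
  | false, false => fun _ => 1
  | false, true => fun p => (T3 P).E (p b)
  | true, false => fun p => ((T3 P).E (p a))⁻¹
  | true, true => fun p => if p = 0 then 1 else (T3 P).E (p b) / (T3 P).E (p a)

lemma triv_Sq {c : ℂ} (a b : Fin 3) :
    IsTrivialization (T3 P).bundle (Sq P c) a b 1 (sSq P a b) := by
  classical
  have hU0 : ∀ x : Ell P, x ∈ (T3 P).U false ↔ x ≠ 0 := fun x => Iff.rfl
  have hU1 : ∀ x : Ell P, x ∈ (T3 P).U true ↔ (x = 0 ∨ (T3 P).E x ≠ 0) := fun x => Iff.rfl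
  -- points of the curve with a coordinate which is not zero
  have hne : ∀ p ∈ Sq P c, ∀ i j : Fin 3, p i ≠ 0 → p j ≠ 0 := by
    intro p hp i j hi hj
    apply hi
    rw [Sq_coord_zero hp hj]
    rfl
  have hhol : ∀ (i : Fin 3) (p : Fin 3 → Ell P), p i ≠ 0 →
      IsHolAt (Sq P c) (fun p => (T3 P).E (p i)) p := by
    intro i p hi
    obtain ⟨z, rfl⟩ := exists_pr p
    rw [pr_apply, ne_eq, coe_eq_zero_iff] at hi
    refine holAt_of z (fun w => ℘'[P] (w i)) (analyticAt_coord i z ((T3 P).an _ hi)) ?_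
    exact Eventually.of_forall fun w _ => (T3 P).E_coe (w i)
  have hT : ∀ p ∈ Sq P c, ∀ i, p i ≠ 0 → p i ∈ (T3 P).U true → (T3 P).E (p i) ≠ 0 := by
    intro p hp i h1 h2
    rcases (hU1 _).mp h2 with h3 | h3
    · exact absurd h3 h1
    · exact h3
  refine ⟨?_, ?_, ?_⟩
  · intro i j p hp hi hj
    cases i <;> cases j
    · obtain ⟨z, rfl⟩ := exists_pr p
      exact holAt_of z (fun _ => 1) analyticAt_const (Eventually.of_forall fun w _ => rfl)
    · exact hhol b p (hne p hp a b hi)
    · have h1 : p a ≠ 0 := hne p hp b a hj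
      exact (hhol a p h1).inv hp (hT p hp a h1 hi)
    · by_cases h0 : p = 0
      · subst h0
        obtain ⟨R, hR, hR0, hR'⟩ := exists_R (P := P) c
        have hz0 : pr P (0 : Fin 3 → ℂ) = 0 := by
          funext i
          exact (coe_eq_zero_iff _).mpr (zero_mem _)
        refine ⟨0, fun w => R (w b) / R (w a), hz0, ?_, ?_⟩
        · exact (analyticAt_coord b 0 hR).fun_div (analyticAt_coord a 0 hR) (by
            change R 0 ≠ 0
            rw [hR0]; exact one_ne_zero)
        · have hcoord : ∀ i : Fin 3, Tendsto (fun w : Fin 3 → ℂ => w i) (𝓝 0) (𝓝 0) := by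
            intro i
            exact (continuous_apply i).tendsto (0 : Fin 3 → ℂ)
          have hl := eventually_mem_lattice' (P := P) (zero_mem P.lattice)
          filter_upwards [hcoord a hR', hcoord b hR', hcoord a hl, hcoord b hl] with w h1 h2 h3 h4 hw
          have h3' : w a ∈ P.lattice ↔ w a = 0 := h3
          have h4' : w b ∈ P.lattice ↔ w b = 0 := h4
          change (if pr P w = 0 then 1 else (T3 P).E (pr P w b) / (T3 P).E (pr P w a)) = _
          by_cases hw0 : pr P w = 0
          · rw [if_pos hw0]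
            have b1 : w a = 0 := h3'.mp ((coe_eq_zero_iff _).mp (congrFun hw0 a))
            have b2 : w b = 0 := h4'.mp ((coe_eq_zero_iff _).mp (congrFun hw0 b))
            rw [b1, b2, hR0, div_one]
          · rw [if_neg hw0]
            have b1 : w a ≠ 0 := by
              intro h
              apply hw0
              refine Sq_coord_zero hw (i := a) ?_
              exact (coe_eq_zero_iff _).mpr (h3'.mpr h)
            have b2 : w b ≠ 0 := by
              intro h
              apply hw0
              refine Sq_coord_zero hw (i := b) ?_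
              exact (coe_eq_zero_iff _).mpr (h4'.mpr h)
            obtain ⟨c1, c2, c3⟩ := h1 b1
            obtain ⟨d1, d2, d3⟩ := h2 b2
            have hf := Sq_f hw hw0 a b
            simp only [pr_apply, PoleFun.E_coe] at hf ⊢
            have hf' : fc P c (w a) = fc P c (w b) := hf
            change ℘'[P] (w b) / ℘'[P] (w a) = _
            rw [c1, d1, hf']
            field_simp
      · have h1 : p a ≠ 0 := fun h => h0 (Sq_coord_zero hp h)
        have h2 : p b ≠ 0 := fun h => h0 (Sq_coord_zero hp h)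
        obtain ⟨z, rfl⟩ := exists_pr p
        have h1' : z a ∉ P.lattice := fun h => h1 ((coe_eq_zero_iff _).mpr h)
        have h2' : z b ∉ P.lattice := fun h => h2 ((coe_eq_zero_iff _).mpr h)
        have h3 : ℘'[P] (z a) ≠ 0 := by
          have := hT _ hp a h1 hi
          rwa [pr_apply, PoleFun.E_coe] at this
        refine holAt_of z (fun w => ℘'[P] (w b) / ℘'[P] (w a)) ?_ ?_
        · exact (analyticAt_coord b z ((T3 P).an _ h2')).fun_div
            (analyticAt_coord a z ((T3 P).an _ h1')) h3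
        · have h4 : Tendsto (fun w : Fin 3 → ℂ => w a) (𝓝 z) (𝓝 (z a)) :=
            (continuous_apply a).tendsto z
          filter_upwards [h4 (eventually_notMem_lattice h1')] with w hw _
          have hw0 : pr P w ≠ 0 := fun h => hw ((coe_eq_zero_iff _).mp (congrFun h a))
          change (if pr P w = 0 then 1 else (T3 P).E (pr P w b) / (T3 P).E (pr P w a)) = _
          rw [if_neg hw0, pr_apply, pr_apply, PoleFun.E_coe, PoleFun.E_coe]
          rfl
  · intro i j p hp hi hj
    cases i <;> cases j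
    · exact one_ne_zero
    · exact hT p hp b (hne p hp a b hi) hj
    · exact inv_ne_zero (hT p hp a (hne p hp b a hj) hi)
    · change (if p = 0 then 1 else (T3 P).E (p b) / (T3 P).E (p a)) ≠ 0
      by_cases h0 : p = 0
      · rw [if_pos h0]; exact one_ne_zero
      · rw [if_neg h0]
        have h1 : p a ≠ 0 := fun h => h0 (Sq_coord_zero hp h)
        have h2 : p b ≠ 0 := fun h => h0 (Sq_coord_zero hp h)
        exact div_ne_zero (hT p hp b h2 hj) (hT p hp a h1 hi)
  · intro i j i' j' p hp hi hi' hj hj'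
    rw [pow_one]
    have g1 : (T3 P).bundle.g false false = fun _ => 1 := rfl
    have g2 : (T3 P).bundle.g true true = fun _ => 1 := rfl
    have g3 : (T3 P).bundle.g false true = (T3 P).E := rfl
    have g4 : (T3 P).bundle.g true false = fun x => ((T3 P).E x)⁻¹ := rfl
    change p a ∈ (T3 P).U i at hi
    change p a ∈ (T3 P).U i' at hi'
    change p b ∈ (T3 P).U j at hj
    change p b ∈ (T3 P).U j' at hj'
    by_cases h0 : p = 0
    · have ha : p a = 0 := by rw [h0]; rfl
      have hb : p b = 0 := by rw [h0]; rfl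
      have k1 : ∀ l : Bool, p a ∈ (T3 P).U l → l = true := by
        intro l hl
        cases l
        · exact absurd ha hl
        · rfl
      have k2 : ∀ l : Bool, p b ∈ (T3 P).U l → l = true := by
        intro l hl
        cases l
        · exact absurd hb hl
        · rfl
      have q1 := k1 i hi
      have q2 := k1 i' hi'
      have q3 := k2 j hj
      have q4 := k2 j' hj'
      subst q1 q2 q3 q4
      rw [g2]
      simp
    · have h1 : p a ≠ 0 := fun h => h0 (Sq_coord_zero hp h)
      have h2 : p b ≠ 0 := fun h => h0 (Sq_coord_zero hp h)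
      have hA := hT p hp a h1
      have hB := hT p hp b h2
      set X := (T3 P).E (p a) with hX
      set Y := (T3 P).E (p b) with hY
      cases i <;> cases j <;> cases i' <;> cases j' <;>
        simp only [g1, g2, g3, g4, sSq, ← hX, ← hY, if_neg h0] <;>
        first
          | (have hx : X ≠ 0 := by first | exact hA hi | exact hA hi'
             have hy : Y ≠ 0 := by first | exact hB hj | exact hB hj'
             field_simp)
          | (have hx : X ≠ 0 := by first | exact hA hi | exact hA hi'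
             field_simp)
          | (have hy : Y ≠ 0 := by first | exact hB hj | exact hB hj'
             field_simp)
          | simp

lemma isQuasiDiagonal_Sq {c : ℂ} (hc : GoodC P c) : IsQuasiDiagonal (T3 P).bundle (Sq P c) :=
  ⟨curve_Sq hc, fun a b => ⟨1, le_rfl, _, triv_Sq a b⟩⟩

/-! ### more coordinates -/

/-- the signs -/
def sgn (j : ℕ) : ℤ := if j < 3 then 1 else (-1) ^ j

/-- the combinatorial data of `(x, y, z) ↦ (x, y, z, -x, x, -x, x, …)` -/
def embOdd (m : ℕ) (hm : 3 ≤ m) : Emb 3 m where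
  κ := fun j => if h : (j : ℕ) < 3 then ⟨j, h⟩ else 0
  ε := fun j => sgn j
  ρ := fun i => ⟨i, by omega⟩
  hκ := by
    intro i
    have hi : (i : ℕ) < 3 := i.2
    simp [hi]
  hε := by
    intro i
    have hi : (i : ℕ) < 3 := i.2
    simp [sgn, hi]
  hε2 := by
    intro j
    unfold sgn
    by_cases h : (j : ℕ) < 3
    · left; rw [if_pos h]
    · rw [if_neg h]
      exact neg_one_pow_eq_or ℤ _

lemma sum_sgn (k : ℕ) : ∑ j ∈ Finset.range (2 * k), sgn (3 + j) = 0 := by
  induction k with
  | zero => simp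
  | succ k ih =>
    have e : 2 * (k + 1) = 2 * k + 1 + 1 := by ring
    rw [e, Finset.sum_range_succ, Finset.sum_range_succ, ih]
    unfold sgn
    rw [if_neg (by omega), if_neg (by omega)]
    have e2 : 3 + (2 * k + 1) = (3 + 2 * k) + 1 := by ring
    rw [e2, pow_succ]
    ring

lemma restricted_Sq {c : ℂ} {m : ℕ} (hm : 3 ≤ m) (hodd : Odd m) :
    IsRestricted ((embOdd m hm).image (Sq P c)) := by
  refine ⟨0, ?_⟩
  rintro p ⟨s, ⟨z, rfl, hsum, -⟩, rfl⟩
  obtain ⟨k, hk⟩ := hodd
  obtain ⟨k', rfl⟩ : ∃ k', k = k' + 1 := ⟨k - 1, by omega⟩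
  have hm' : m = 3 + 2 * k' := by omega
  subst hm'
  have h1 : ∀ j : Fin (3 + 2 * k'), (embOdd (3 + 2 * k') hm).φ (pr P z) j =
      (fun j : ℕ => if h : j < 3 then pr P z ⟨j, h⟩ else sgn j • pr P z 0) (j : ℕ) := by
    intro j
    change sgn j • pr P z (if h : (j : ℕ) < 3 then ⟨j, h⟩ else 0) = _
    by_cases h : (j : ℕ) < 3
    · simp [h, sgn]
    · simp [h]
  rw [Finset.sum_congr rfl fun j _ => h1 j]
  rw [Fin.sum_univ_eq_sum_range (fun j : ℕ => if h : j < 3 then pr P z ⟨j, h⟩ else sgn j • pr P z 0)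
    (3 + 2 * k'), Finset.sum_range_add]
  have h2 : ∑ x ∈ Finset.range (2 * k'), (if h : 3 + x < 3 then pr P z ⟨3 + x, h⟩ else
      sgn (3 + x) • pr P z 0) = 0 := by
    have : ∀ x ∈ Finset.range (2 * k'), (if h : 3 + x < 3 then pr P z ⟨3 + x, h⟩ else
      sgn (3 + x) • pr P z 0) = sgn (3 + x) • pr P z 0 := by
      intro x _
      rw [dif_neg (by omega)]
    rw [Finset.sum_congr rfl this, ← Finset.sum_smul, sum_sgn, zero_smul]
  rw [h2, add_zero, Finset.sum_range_succ, Finset.sum_range_succ, Finset.sum_range_one]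
  simp only [show (0 : ℕ) < 3 by norm_num, show (1 : ℕ) < 3 by norm_num,
    show (2 : ℕ) < 3 by norm_num, dif_pos]
  have h3 : ((z 0 + z 1 + z 2 : ℂ) : Ell P) = 0 := by rw [hsum]; rfl
  exact h3

lemma quasi_SqOdd {c : ℂ} (hc : GoodC P c) {m : ℕ} (hm : 3 ≤ m) :
    IsQuasiDiagonal (T3 P).bundle ((embOdd m hm).image (Sq P c)) := by
  refine ⟨(embOdd m hm).isCurve_image (curve_Sq hc), ?_⟩
  intro a b
  refine ⟨2 * 1, by omega, _, (embOdd m hm).triv_image (T3 P) ?_ a b (triv_Sq _ _)⟩
  intro z
  change ℘'[P] (-z) ^ 2 = ℘'[P] z ^ 2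
  rw [P.derivWeierstrassP_neg]
  ring

end

end Pool.Agent.V1164.QD
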